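import Pool.Agent.Lib.MP_2127f1_co.Initial

/-!
The number of complex solutions of a square polynomial system with generic right-hand side.
-/

namespace Pool.Agent.Lib.MP_2127f1_co

open MvPolynomial

section Abstract

variable {A R : Type} [CommRing A] [IsDomain A] [CommRing R] [IsDomain R] [Algebra A R]
  [Algebra A ℂ] [CharZero A]

theorem algHom_count [FaithfulSMul A R] [FaithfulSMul A ℂ] [Algebra.FiniteType A R]
    [Algebra.IsAlgebraic A R] {I : Type} [Fintype I] (v : I → R) (hv : LinearIndependent A v) :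
    ∃ s : Finset (R →ₐ[A] ℂ), Fintype.card I ≤ s.card := by
  classical
  let K := FractionRing A
  let L := FractionRing R
  let _ : Algebra K L := FractionRing.liftAlgebra A L
  let _ : Algebra K ℂ := FractionRing.liftAlgebra A ℂ
  have : IsScalarTower A K L := FractionRing.isScalarTower_liftAlgebra A L
  have : IsScalarTower A K ℂ := FractionRing.isScalarTower_liftAlgebra A ℂ
  have : Algebra.IsAlgebraic R L := IsLocalization.isAlgebraic L (nonZeroDivisors R)
  have : Algebra.IsAlgebraic A L := Algebra.IsAlgebraic.trans A R L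
  have : Algebra.IsAlgebraic K L := Algebra.IsAlgebraic.extendScalars
    (R := A) (IsFractionRing.injective A K)
  have : Algebra.EssFiniteType R L := Algebra.EssFiniteType.of_isLocalization L (nonZeroDivisors R)
  have : Algebra.EssFiniteType A L := Algebra.EssFiniteType.comp A R L
  have : Algebra.EssFiniteType K L := Algebra.EssFiniteType.of_comp A K L
  have : Module.Finite K L := Algebra.finite_of_essFiniteType_of_isAlgebraic
  have : CharZero K := inferInstance
  have h1 : LinearIndependent A (fun i => algebraMap R L (v i)) :=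
    hv.map' (IsScalarTower.toAlgHom A R L).toLinearMap
      (LinearMap.ker_eq_bot.mpr (IsFractionRing.injective R L))
  have h2 : LinearIndependent K (fun i => algebraMap R L (v i)) :=
    (LinearIndependent.iff_fractionRing A K).mp h1
  have h3 : Fintype.card I ≤ Fintype.card (L →ₐ[K] ℂ) := by
    rw [AlgHom.card]
    exact h2.fintype_card_le_finrank
  let Φ : (L →ₐ[K] ℂ) → (R →ₐ[A] ℂ) := fun φ =>
    (φ.restrictScalars A).comp (IsScalarTower.toAlgHom A R L)
  have hΦ : Function.Injective Φ := by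
    intro φ ψ h
    apply AlgHom.coe_ringHom_injective
    refine IsLocalization.ringHom_ext (nonZeroDivisors R) ?_
    ext r
    exact DFunLike.congr_fun h r
  refine ⟨Finset.univ.image Φ, ?_⟩
  rw [Finset.card_image_of_injective _ hΦ, Finset.card_univ]
  exact h3

end Abstract

variable {σ τ : Type}

theorem solutions_count [Fintype σ] [Fintype τ] (g : τ → MvPolynomial σ ℚ)
    (hg : AlgebraicIndependent ℚ g) (hcard : Fintype.card τ = Fintype.card σ)
    {I : Type} [Fintype I] (v : I → MvPolynomial σ ℚ)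
    (hv : ∀ P : I → MvPolynomial τ ℚ, ∑ i, aeval g (P i) * v i = 0 → ∀ i, P i = 0)
    (y : τ → ℂ) (hy : AlgebraicIndependent ℚ y) :
    {x : σ → ℂ | ∀ e, aeval x (g e) = y e}.Finite ∧
      Fintype.card I ≤ {x : σ → ℂ | ∀ e, aeval x (g e) = y e}.ncard := by
  classical
  let _ : Algebra (MvPolynomial τ ℚ) (MvPolynomial σ ℚ) := (aeval g).toRingHom.toAlgebra
  let _ : Algebra (MvPolynomial τ ℚ) ℂ := (aeval y).toRingHom.toAlgebra
  have : FaithfulSMul (MvPolynomial τ ℚ) (MvPolynomial σ ℚ) :=
    (faithfulSMul_iff_algebraMap_injective _ _).mpr hg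
  have : FaithfulSMul (MvPolynomial τ ℚ) ℂ :=
    (faithfulSMul_iff_algebraMap_injective _ _).mpr hy
  have : IsScalarTower ℚ (MvPolynomial τ ℚ) (MvPolynomial σ ℚ) :=
    IsScalarTower.of_algebraMap_eq fun r => ((aeval g).commutes r).symm
  have : Algebra.FiniteType (MvPolynomial τ ℚ) (MvPolynomial σ ℚ) :=
    Algebra.FiniteType.of_restrictScalars_finiteType ℚ _ _
  have htb : IsTranscendenceBasis ℚ g := by
    refine hg.isTranscendenceBasis_of_trdeg_le_of_finite ?_
    rw [MvPolynomial.trdeg_of_isDomain]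
    simp [hcard]
  have : Algebra.IsAlgebraic (MvPolynomial τ ℚ) (MvPolynomial σ ℚ) := by
    have h1 := htb.isAlgebraic
    refine ⟨fun f => ?_⟩
    obtain ⟨p, hp, hpf⟩ := h1.isAlgebraic f
    refine ⟨p.map (hg.aevalEquiv.symm : Algebra.adjoin ℚ (Set.range g) →+* MvPolynomial τ ℚ),
      (Polynomial.map_ne_zero_iff hg.aevalEquiv.symm.injective).mpr hp, ?_⟩
    rw [Polynomial.aeval_def, Polynomial.eval₂_map]
    rw [Polynomial.aeval_def] at hpf
    have hcomp : (algebraMap (MvPolynomial τ ℚ) (MvPolynomial σ ℚ)).comp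
        (hg.aevalEquiv.symm : Algebra.adjoin ℚ (Set.range g) →+* MvPolynomial τ ℚ) =
        algebraMap (Algebra.adjoin ℚ (Set.range g)) (MvPolynomial σ ℚ) := by
      refine RingHom.ext fun s => ?_
      change aeval g (hg.aevalEquiv.symm s) = (s : MvPolynomial σ ℚ)
      rw [← hg.algebraMap_aevalEquiv, AlgEquiv.apply_symm_apply]
      rfl
    rw [hcomp]
    exact hpf
  have hfin : {x : σ → ℂ | ∀ e, aeval x (g e) = y e}.Finite := by
    have halg : ∀ i, IsAlgebraic (MvPolynomial τ ℚ) (X i : MvPolynomial σ ℚ) := fun i =>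
      Algebra.IsAlgebraic.isAlgebraic _
    choose p hp hpX using halg
    refine (Set.Finite.pi' (t := fun i => {z : ℂ | ((p i).map (aeval y).toRingHom).IsRoot z})
      fun i => Polynomial.finite_setOfPred_isRoot
        ((Polynomial.map_ne_zero_iff hy).mpr (hp i))).subset ?_
    intro x hx i
    change ((p i).map (aeval y).toRingHom).IsRoot (x i)
    rw [Polynomial.IsRoot.def, Polynomial.eval_map]
    have h1 := congrArg (aeval x) (hpX i)
    rw [map_zero, Polynomial.aeval_def] at h1
    have h2 := Polynomial.hom_eval₂ (p i) (algebraMap (MvPolynomial τ ℚ) (MvPolynomial σ ℚ))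
      (aeval x : MvPolynomial σ ℚ →ₐ[ℚ] ℂ).toRingHom (X i)
    have h3 : (aeval x : MvPolynomial σ ℚ →ₐ[ℚ] ℂ).toRingHom (X i) = x i := by simp
    have h4 : (aeval x : MvPolynomial σ ℚ →ₐ[ℚ] ℂ).toRingHom.comp
        (algebraMap (MvPolynomial τ ℚ) (MvPolynomial σ ℚ)) = (aeval y).toRingHom := by
      have : (aeval x : MvPolynomial σ ℚ →ₐ[ℚ] ℂ).comp (aeval g) = aeval y := by
        ext e
        simpa using hx e
      exact congrArg AlgHom.toRingHom this
    rw [h3, h4] at h2
    exact h2.symm.trans h1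
  refine ⟨hfin, ?_⟩
  have hli : LinearIndependent (MvPolynomial τ ℚ) v := Fintype.linearIndependent_iff.mpr hv
  obtain ⟨s, hs⟩ := algHom_count v hli
  refine hs.trans ?_
  rw [← Set.ncard_coe_finset]
  refine Set.ncard_le_ncard_of_injOn (fun φ => fun i => φ (X i)) ?_ ?_ hfin
  · intro φ _ e
    have h1 : (aeval (fun i => φ (X i)) : MvPolynomial σ ℚ →ₐ[ℚ] ℂ) =
        φ.toRingHom.toRatAlgHom := by
      ext i
      simp
    rw [h1]
    have h2 := φ.commutes (X e)
    change φ (aeval g (X e)) = aeval y (X e) at h2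
    rw [aeval_X, aeval_X] at h2
    exact h2
  · intro φ _ ψ _ h
    have h1 : φ.toRingHom.toRatAlgHom = ψ.toRingHom.toRatAlgHom := by
      ext i
      exact congrFun h i
    ext f
    exact DFunLike.congr_fun h1 f

theorem bezout [Fintype σ] [Fintype τ] (q c : τ → MvPolynomial σ ℚ)
    (hq : ∀ e, (q e).IsHomogeneous 2) (hc : ∀ e, (c e).IsHomogeneous 3)
    (h0 : ∀ x : σ → ℂ, (∀ e, aeval x (q e) = 0) → x = 0)
    (hcard : Fintype.card τ = Fintype.card σ) (y : τ → ℂ) (hy : AlgebraicIndependent ℚ y) :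
    {x : σ → ℂ | ∀ e, aeval x (q e + c e) = y e}.Finite ∧
      2 ^ Fintype.card σ ≤ {x : σ → ℂ | ∀ e, aeval x (q e + c e) = y e}.ncard := by
  obtain ⟨I, hI, v, hcI, hv⟩ := exists_independent' q c hq hc h0 hcard
  obtain ⟨h1, h2⟩ := solutions_count (fun e => q e + c e)
    (algebraicIndependent_add q c hq hc h0 hcard) hcard v hv y hy
  exact ⟨h1, hcI.trans h2⟩

end Pool.Agent.Lib.MP_2127f1_co
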