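import Mathlib

/-!
Homogeneous quadratic polynomials with only the trivial common zero: the polynomial ring is a
finite module over the subalgebra they generate, with control of degrees.
-/

namespace Pool.Agent.Lib.MP_2127f1_co

open MvPolynomial

variable {σ τ : Type}

theorem hc_mul {q : MvPolynomial σ ℚ} (hq : q.IsHomogeneous 2) (a : MvPolynomial σ ℚ) (n : ℕ) :
    homogeneousComponent (n + 2) (a * q) = homogeneousComponent n a * q := by
  induction a using MvPolynomial.induction_on' with
  | monomial d c =>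
      have h1 : (monomial d c : MvPolynomial σ ℚ).IsHomogeneous d.degree :=
        isHomogeneous_monomial c rfl
      rw [homogeneousComponent_of_mem (h1.mul hq), homogeneousComponent_of_mem h1]
      by_cases h : n = d.degree
      · simp [h]
      · simp [h]
  | add p p' hp hp' => simp only [add_mul, map_add, hp, hp']

theorem exists_pow_eq [Fintype σ] [Fintype τ] (q : τ → MvPolynomial σ ℚ)
    (hq : ∀ e, (q e).IsHomogeneous 2)
    (h0 : ∀ x : σ → ℂ, (∀ e, aeval x (q e) = 0) → x = 0) :
    ∃ N : ℕ, ∀ i, ∃ a : τ → MvPolynomial σ ℚ, (∀ e, (a e).IsHomogeneous N) ∧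
      (X i : MvPolynomial σ ℚ) ^ (N + 2) = ∑ e, a e * q e := by
  have h1 : ∀ i, ∃ n : ℕ, (X i : MvPolynomial σ ℚ) ^ n ∈ Ideal.span (Set.range q) := by
    intro i
    have : (X i : MvPolynomial σ ℚ) ∈ (Ideal.span (Set.range q)).radical := by
      rw [← vanishingIdeal_zeroLocus_eq_radical (K := ℂ), mem_vanishingIdeal_iff]
      intro x hx
      rw [zeroLocus_span] at hx
      have := h0 x (fun e => hx _ ⟨e, rfl⟩)
      simp [this]
    exact this
  choose n hn using h1
  refine ⟨Finset.univ.sup n, fun i => ?_⟩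
  have h2 : (X i : MvPolynomial σ ℚ) ^ (Finset.univ.sup n + 2) ∈ Ideal.span (Set.range q) := by
    have : n i ≤ Finset.univ.sup n + 2 :=
      (Finset.le_sup (f := n) (Finset.mem_univ i)).trans (Nat.le_add_right _ _)
    obtain ⟨d, hd⟩ := Nat.exists_eq_add_of_le this
    rw [hd, pow_add]
    exact Ideal.mul_mem_right _ _ (hn i)
  obtain ⟨c, hc⟩ := Ideal.mem_span_range_iff_exists_fun.mp h2
  refine ⟨fun e => homogeneousComponent (Finset.univ.sup n) (c e),
    fun e => homogeneousComponent_isHomogeneous _ _, ?_⟩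
  have h3 := congrArg (homogeneousComponent (Finset.univ.sup n + 2)) hc
  rw [homogeneousComponent_eq_self (isHomogeneous_X_pow i _), map_sum] at h3
  rw [← h3]
  exact Finset.sum_congr rfl fun e _ => hc_mul (hq e) _ _

/-- The span of the products of a monomial in `q` of degree at most `n` and an element of `v`. -/
noncomputable def filt (q : τ → MvPolynomial σ ℚ) (v : Set (MvPolynomial σ ℚ)) (n : ℕ) :
    Submodule ℚ (MvPolynomial σ ℚ) :=
  Submodule.span ℚ {f | ∃ (u : τ →₀ ℕ) (w : MvPolynomial σ ℚ), u.degree ≤ n ∧ w ∈ v ∧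
    f = aeval q (monomial u (1 : ℚ)) * w}

theorem filt_mono (q : τ → MvPolynomial σ ℚ) (v : Set (MvPolynomial σ ℚ)) {m n : ℕ}
    (h : m ≤ n) : filt q v m ≤ filt q v n := by
  refine Submodule.span_mono ?_
  rintro _ ⟨u, w, hu, hw, rfl⟩
  exact ⟨u, w, hu.trans h, hw, rfl⟩

theorem mem_filt (q : τ → MvPolynomial σ ℚ) (v : Set (MvPolynomial σ ℚ)) (n : ℕ)
    {w : MvPolynomial σ ℚ} (hw : w ∈ v) : w ∈ filt q v n :=
  Submodule.subset_span ⟨0, w, by simp, hw, by simp⟩

theorem monomial_mul_mem_filt (q : τ → MvPolynomial σ ℚ) (v : Set (MvPolynomial σ ℚ))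
    (u : τ →₀ ℕ) (n : ℕ) {f : MvPolynomial σ ℚ} (hf : f ∈ filt q v n) :
    aeval q (monomial u (1 : ℚ)) * f ∈ filt q v (u.degree + n) := by
  induction hf using Submodule.span_induction with
  | mem f hf =>
      obtain ⟨u', w, hu', hw, rfl⟩ := hf
      refine Submodule.subset_span ⟨u + u', w, ?_, hw, ?_⟩
      · rw [map_add]; omega
      · rw [← mul_assoc, ← map_mul, monomial_mul, one_mul]
  | zero => simp
  | add f g _ _ hf hg => rw [mul_add]; exact Submodule.add_mem _ hf hg
  | smul c f _ hf => rw [mul_smul_comm]; exact Submodule.smul_mem _ c hf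

theorem aeval_mul_mem_filt (q : τ → MvPolynomial σ ℚ) (v : Set (MvPolynomial σ ℚ))
    (P : MvPolynomial τ ℚ) (n : ℕ) {f : MvPolynomial σ ℚ} (hf : f ∈ filt q v n) :
    aeval q P * f ∈ filt q v (P.totalDegree + n) := by
  conv => enter [2, 1, 2]; rw [P.as_sum]
  rw [map_sum, Finset.sum_mul]
  refine Submodule.sum_mem _ fun u hu => ?_
  have : (monomial u (coeff u P) : MvPolynomial τ ℚ) = coeff u P • monomial u 1 := by
    rw [smul_monomial, smul_eq_mul, mul_one]
  rw [this, map_smul, smul_mul_assoc]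
  refine Submodule.smul_mem _ _ (filt_mono q v ?_ (monomial_mul_mem_filt q v u n hf))
  have := le_totalDegree hu
  have h2 : u.degree = u.sum fun _ e => e := rfl
  omega

/-- The monomials of degree less than `D`. -/
def lowMon (σ : Type) (D : ℕ) : Set (MvPolynomial σ ℚ) :=
  (fun s : σ →₀ ℕ => monomial s (1 : ℚ)) '' {s | s.degree < D}

theorem lowMon_finite [Finite σ] (D : ℕ) : (lowMon σ D).Finite :=
  (Finsupp.finite_of_degree_lt D).image _

theorem exists_filt [Fintype σ] [Fintype τ] (q : τ → MvPolynomial σ ℚ)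
    (hq : ∀ e, (q e).IsHomogeneous 2)
    (h0 : ∀ x : σ → ℂ, (∀ e, aeval x (q e) = 0) → x = 0) :
    ∃ D : ℕ, ∀ d, ∀ f : MvPolynomial σ ℚ, f.IsHomogeneous d →
      f ∈ filt q (lowMon σ D) (d / 2) := by
  classical
  obtain ⟨N, hN⟩ := exists_pow_eq q hq h0
  choose a ha hX using hN
  refine ⟨Fintype.card σ * (N + 1) + 1, fun d => ?_⟩
  have key : ∀ d, ∀ f : MvPolynomial σ ℚ, f.IsHomogeneous d →
      f ∈ filt q (lowMon σ (Fintype.card σ * (N + 1) + 1)) (d / 2) := by
    intro d
    induction d using Nat.strong_induction_on with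
    | _ d ih =>
      intro f hf
      rw [f.as_sum]
      refine Submodule.sum_mem _ fun s hs => ?_
      have hsd : s.degree = d := by
        by_contra hne
        exact (mem_support_iff.mp hs) (hf.coeff_eq_zero hne)
      have : (monomial s (coeff s f) : MvPolynomial σ ℚ) = coeff s f • monomial s 1 := by
        rw [smul_monomial, smul_eq_mul, mul_one]
      rw [this]
      refine Submodule.smul_mem _ _ ?_
      by_cases hlow : s.degree < Fintype.card σ * (N + 1) + 1
      · exact mem_filt q _ _ ⟨s, hlow, rfl⟩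
      · have hex : ∃ i, N + 2 ≤ s i := by
          by_contra hcon
          push Not at hcon
          apply hlow
          have : s.degree = ∑ i, s i := Finsupp.degree_eq_sum s
          rw [this]
          have h2 : ∑ i, s i ≤ ∑ _i : σ, (N + 1) :=
            Finset.sum_le_sum fun i _ => by have := hcon i; omega
          simp only [Finset.sum_const, Finset.card_univ, smul_eq_mul] at h2
          omega
        obtain ⟨i, hi⟩ := hex
        have hle : Finsupp.single i (N + 2) ≤ s := by
          rw [Finsupp.single_le_iff]; exact hi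
        obtain ⟨s', rfl⟩ := le_iff_exists_add'.mp hle
        have hdeg : s'.degree + (N + 2) = d := by
          rw [← hsd, map_add, Finsupp.degree_single]
        have hm : (monomial (s' + Finsupp.single i (N + 2)) (1 : ℚ) : MvPolynomial σ ℚ) =
            ∑ e, aeval q (monomial (Finsupp.single e 1) (1 : ℚ)) * (monomial s' 1 * a i e) := by
          rw [monomial_add_single, hX i, Finset.mul_sum]
          refine Finset.sum_congr rfl fun e _ => ?_
          have : (monomial (Finsupp.single e 1) (1 : ℚ) : MvPolynomial τ ℚ) = X e := rfl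
          rw [this, aeval_X]
          ring
        rw [hm]
        refine Submodule.sum_mem _ fun e _ => ?_
        have h1 : (monomial s' (1 : ℚ) * a i e).IsHomogeneous (s'.degree + N) :=
          (isHomogeneous_monomial 1 rfl).mul (ha i e)
        have h2 := monomial_mul_mem_filt q _ (Finsupp.single e 1) _ (ih _ (by omega) _ h1)
        refine filt_mono q _ ?_ h2
        rw [Finsupp.degree_single]
        omega
  exact key d

theorem filt_le_span (q : τ → MvPolynomial σ ℚ) (v : Set (MvPolynomial σ ℚ)) (n : ℕ)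
    {f : MvPolynomial σ ℚ} (hf : f ∈ filt q v n) :
    f ∈ Submodule.span (Algebra.adjoin ℚ (Set.range q)) v := by
  induction hf using Submodule.span_induction with
  | mem f hf =>
      obtain ⟨u, w, _, hw, rfl⟩ := hf
      have hm : aeval q (monomial u (1 : ℚ)) ∈ Algebra.adjoin ℚ (Set.range q) := by
        rw [Algebra.adjoin_range_eq_range_aeval]
        exact ⟨_, rfl⟩
      exact Submodule.smul_mem _ (⟨_, hm⟩ : Algebra.adjoin ℚ (Set.range q))
        (Submodule.subset_span hw)
  | zero => exact Submodule.zero_mem _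
  | add f g _ _ hf hg => exact Submodule.add_mem _ hf hg
  | smul c f _ hf => exact Submodule.smul_of_tower_mem _ c hf

theorem finite_adjoin [Fintype σ] [Fintype τ] (q : τ → MvPolynomial σ ℚ)
    (hq : ∀ e, (q e).IsHomogeneous 2)
    (h0 : ∀ x : σ → ℂ, (∀ e, aeval x (q e) = 0) → x = 0) :
    Module.Finite (Algebra.adjoin ℚ (Set.range q)) (MvPolynomial σ ℚ) := by
  obtain ⟨D, hD⟩ := exists_filt q hq h0
  refine ⟨Submodule.fg_def.mpr ⟨lowMon σ D, lowMon_finite D, ?_⟩⟩
  rw [eq_top_iff]
  intro f _
  rw [← f.sum_homogeneousComponent]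
  exact Submodule.sum_mem _ fun d _ =>
    filt_le_span q _ _ (hD d _ (homogeneousComponent_isHomogeneous _ _))

theorem finite_fiber [Fintype σ] [Fintype τ] (q : τ → MvPolynomial σ ℚ)
    (hq : ∀ e, (q e).IsHomogeneous 2)
    (h0 : ∀ x : σ → ℂ, (∀ e, aeval x (q e) = 0) → x = 0) (y : τ → ℂ) :
    {x : σ → ℂ | ∀ e, aeval x (q e) = y e}.Finite := by
  have := finite_adjoin q hq h0
  by_cases hne : {x : σ → ℂ | ∀ e, aeval x (q e) = y e} = ∅
  · rw [hne]; exact Set.finite_empty
  obtain ⟨x₀, hx₀⟩ := Set.nonempty_iff_ne_empty.mpr hne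
  let S := Algebra.adjoin ℚ (Set.range q)
  have hint : ∀ i, IsIntegral S (X i : MvPolynomial σ ℚ) := fun i =>
    Algebra.IsIntegral.isIntegral _
  choose p hp hpX using hint
  let φ : (σ → ℂ) → S →+* ℂ := fun x => ((aeval x).comp S.val).toRingHom
  have hφ : ∀ x : σ → ℂ, (∀ e, aeval x (q e) = y e) → φ x = φ x₀ := by
    intro x hx
    ext ⟨s, hs⟩
    change aeval x s = aeval x₀ s
    induction hs using Algebra.adjoin_induction with
    | mem s hs => obtain ⟨e, rfl⟩ := hs; rw [hx, hx₀]
    | algebraMap r => simp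
    | add s t _ _ hs ht => simp only [map_add, hs, ht]
    | mul s t _ _ hs ht => simp only [map_mul, hs, ht]
  refine (Set.Finite.pi' (t := fun i => {z : ℂ | ((p i).map (φ x₀)).IsRoot z})
    fun i => Polynomial.finite_setOfPred_isRoot ((hp i).map _).ne_zero).subset ?_
  intro x hx i
  change ((p i).map (φ x₀)).IsRoot (x i)
  rw [← hφ x hx, Polynomial.IsRoot.def, Polynomial.eval_map]
  have h1 := congrArg (aeval x) (hpX i)
  rw [map_zero] at h1
  have h2 := Polynomial.hom_eval₂ (p i) (algebraMap S (MvPolynomial σ ℚ))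
    (aeval x : MvPolynomial σ ℚ →ₐ[ℚ] ℂ).toRingHom (X i)
  have h3 : (aeval x : MvPolynomial σ ℚ →ₐ[ℚ] ℂ).toRingHom (X i) = x i := by simp
  rw [h3] at h2
  exact h2.symm.trans h1

theorem algebraicIndependent_of_quadratic [Fintype σ] [Fintype τ] (q : τ → MvPolynomial σ ℚ)
    (hq : ∀ e, (q e).IsHomogeneous 2)
    (h0 : ∀ x : σ → ℂ, (∀ e, aeval x (q e) = 0) → x = 0)
    (hcard : Fintype.card τ = Fintype.card σ) : AlgebraicIndependent ℚ q := by
  have := finite_adjoin q hq h0
  refine (Algebra.IsAlgebraic.isTranscendenceBasis_of_le_trdeg_of_finite ℚ q ?_).1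
  rw [MvPolynomial.trdeg_of_isDomain]
  simp [hcard]

end Pool.Agent.Lib.MP_2127f1_co
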