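import Pool.Agent.Lib.MP_2127f1_co.Main

namespace Pool.Agent.Lib.MP_2127f1_co

open MvPolynomial

theorem count_classesC {V : Type} [Fintype V] [DecidableEq V] (n : ℕ) (hn : Fintype.card V = n + 2)
    (E : Finset (Sym2 V)) (hL : Laman Finset.univ E) (p : V → Fin 2 → ℂ)
    (hp : AlgebraicIndependent ℚ (fun x : V × Fin 2 => p x.1 x.2)) :
    2 ^ (n + 2 - 3) ≤ {D : V → V → ℂ | ∃ q : V → Fin 2 → ℂ,
      (∀ u v, s(u, v) ∈ E →
        ∑ i, (q u i - q v i) ^ 2 = ∑ i, (p u i - p v i) ^ 2) ∧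
      D = fun u v => ∑ i, (q u i - q v i) ^ 2}.ncard := by
  classical
  obtain ⟨a, ha, hst⟩ := exists_stiff n Finset.univ E (by simpa using hn) hL
  have hEc : E.card = 2 * n + 1 := by
    have := hL.count
    rw [Finset.card_univ, hn] at this
    omega
  have hor : ∀ e : E, ∃ u v, (e : Sym2 V) = s(u, v) := fun e =>
    Sym2.ind (fun u v => ⟨u, v, rfl⟩) (e : Sym2 V)
  choose s t hst' using hor
  obtain ⟨e₀, he₀⟩ : E.Nonempty := Finset.card_pos.mp (by omega)
  let v₁ := s ⟨e₀, he₀⟩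
  let v₂ := t ⟨e₀, he₀⟩
  have h12E : s(v₁, v₂) ∈ E := by rw [← hst']; exact he₀
  have h12 : v₁ ≠ v₂ := fun h => hL.loopless _ h12E (Sym2.mk_isDiag_iff.mpr h)
  have a12 : (a v₂ : ℂ) - a v₁ ≠ 0 := sub_ne_zero.mpr (by
    exact_mod_cast fun h => h12 (ha (by simp) (by simp) h).symm)
  have hc1 : Fintype.card {v // v ≠ v₁} = n + 1 := by
    rw [Fintype.card_subtype_compl, Fintype.card_subtype_eq, hn]
    omega
  have hc2 : Fintype.card {v // v ≠ v₁ ∧ v ≠ v₂} = n := by
    rw [Fintype.card_subtype]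
    have : (Finset.univ.filter fun v => v ≠ v₁ ∧ v ≠ v₂) = Finset.univ \ {v₁, v₂} := by
      ext v; simp
    rw [this, Finset.card_univ_sdiff, Finset.card_pair h12, hn]
    omega
  have hcV : Fintype.card (Var v₁ v₂) = 2 * n + 1 := by
    rw [Fintype.card_sum, hc1, hc2]; omega
  have hcard : Fintype.card E = Fintype.card (Var v₁ v₂) := by
    rw [Fintype.card_coe, hEc, hcV]
  let q : E → MvPolynomial (Var v₁ v₂) ℚ := fun e => qq v₁ v₂ a (s e) (t e)
  let c : E → MvPolynomial (Var v₁ v₂) ℚ := fun e => cc v₁ v₂ (s e) (t e)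
  have hq : ∀ e, (q e).IsHomogeneous 2 := fun e => qq_hom _ _ _ _ _
  have hc : ∀ e, (c e).IsHomogeneous 3 := fun e => cc_hom _ _ _ _
  have horient : ∀ (f : V → V → ℂ), (∀ u v, f u v = f v u) → (∀ e, f (s e) (t e) = 0) →
      ∀ u v, s(u, v) ∈ E → f u v = 0 := by
    intro f hf h u v huv
    have h1 := h ⟨_, huv⟩
    rcases Sym2.eq_iff.mp (hst' ⟨_, huv⟩) with ⟨h2, h3⟩ | ⟨h2, h3⟩
    · rw [← h2, ← h3] at h1; exact h1
    · rw [← h2, ← h3, hf] at h1; exact h1
  have h0 : ∀ z : Var v₁ v₂ → ℂ, (∀ e, aeval z (q e) = 0) → z = 0 := by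
    intro z hz
    obtain ⟨θ, k, k', h3⟩ := hst (fun v => aeval z (bv v₁ v₂ v))
      (fun v => aeval z (zv v₁ v₂ v) ^ 2) (horient _ (nul_symm _ _ _) (fun e => by
        simpa [q, qq, nul] using hz e))
    have hu1 := (h3 v₁ (by simp)).1
    have hu2 := (h3 v₁ (by simp)).2
    have hv1 := (h3 v₂ (by simp)).1
    simp only [bv, zv, ne_eq, not_true_eq_false, false_and, and_false, dite_false,
      map_zero] at hu1 hu2 hv1
    have hθ : θ = 0 := by
      have : θ * ((a v₂ : ℂ) - a v₁) = 0 := by linear_combination hu1 - hv1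
      exact (mul_eq_zero.mp this).resolve_right a12
    have hk : k = 0 := by rw [hθ] at hu1; simpa using hu1.symm
    have hk' : k' = 0 := by rw [hθ] at hu2; simpa using hu2.symm
    funext i
    rcases i with ⟨v, hv⟩ | ⟨v, hv⟩
    · simpa [hθ, hk, bv, dif_pos hv] using (h3 v (by simp)).1
    · simpa [hθ, hk', zv, dif_pos hv] using (h3 v (by simp)).2
  let lam : V → V → ℂ := fun u v => ∑ i, (p u i - p v i) ^ 2
  have lam_symm : ∀ u v, lam u v = lam v u := by
    intro u v
    simp only [lam]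
    refine Finset.sum_congr rfl fun i _ => ?_
    ring
  let y : E → ℂ := fun e => lam (s e) (t e) - ((a (s e) : ℂ) - a (t e)) ^ 2
  let real : (Var v₁ v₂ → ℂ) → V → Fin 2 → ℂ := fun z v =>
    ![(xc v₁ v₂ a z v + yc v₁ v₂ a z v) / 2, (xc v₁ v₂ a z v - yc v₁ v₂ a z v) / (2 * Complex.I)]
  have hy : AlgebraicIndependent ℚ y := by
    have hg := algebraicIndependent_add q c hq hc h0 hcard
    have hp' := hp
    let G : E → MvPolynomial (V × Fin 2) ℚ := fun e =>
      ∑ i, (X (s e, i) - X (t e, i)) ^ 2 - C ((a (s e) - a (t e)) ^ 2)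
    rw [algebraicIndependent_iff]
    intro P hP
    have h1 : aeval G P = 0 := by
      refine hp'.eq_zero_of_aeval_eq_zero _ ?_
      rw [← hP, ← AlgHom.comp_apply, comp_aeval]
      congr 2
      funext e
      simp [G, y, lam]
    refine hg.eq_zero_of_aeval_eq_zero _ ?_
    refine MvPolynomial.funext fun r => ?_
    have h2 : aeval (fun i => (r i : ℂ)) (aeval (fun e => q e + c e) P) = 0 := by
      have h3 := congrArg (aeval (fun x : V × Fin 2 => real (fun i => (r i : ℂ)) x.1 x.2)) h1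
      rw [map_zero, ← AlgHom.comp_apply, comp_aeval] at h3
      rw [← h3, ← AlgHom.comp_apply, comp_aeval]
      congr 2
      funext e
      simp only [q, c]
      rw [aeval_edge, ← sum_iso]
      simp [G, real]
    rw [map_zero]
    have h4 := aeval_algebraMap_apply ℂ r (aeval (fun e => q e + c e) P)
    have h5 : ((aeval r (aeval (fun e => q e + c e) P) : ℚ) : ℂ) = 0 := h4.symm.trans h2
    exact_mod_cast h5
  obtain ⟨hfin, hcount⟩ := bezout q c hq hc h0 hcard y hy
  set Sol := {z : Var v₁ v₂ → ℂ | ∀ e, aeval z (q e + c e) = y e} with hSol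
  let Ψ : (Var v₁ v₂ → ℂ) → V → V → ℂ := fun z u v =>
    (xc v₁ v₂ a z u - xc v₁ v₂ a z v) * (yc v₁ v₂ a z u - yc v₁ v₂ a z v)
  have hmem : ∀ z, z ∈ Sol ↔ ∀ u v, s(u, v) ∈ E → Ψ z u v = lam u v := by
    intro z
    constructor
    · intro hz u v huv
      refine sub_eq_zero.mp (horient (fun u v => Ψ z u v - lam u v) ?_ ?_ u v huv)
      · intro u v
        simp only [Ψ, lam_symm u v]
        ring
      · intro e
        have := hz e
        simp only [q, c, y] at this
        rw [aeval_edge] at this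
        simp only [Ψ]
        linear_combination this
    · intro hz e
      simp only [q, c, y]
      rw [aeval_edge, ← hz (s e) (t e) (by rw [← hst']; exact e.2)]
  have lam12 : lam v₂ v₁ ≠ 0 := by
    intro h
    have h1 : (∑ i : Fin 2, (X (v₂, i) - X (v₁, i)) ^ 2 : MvPolynomial (V × Fin 2) ℚ) = 0 :=
      hp.eq_zero_of_aeval_eq_zero _ (by simpa [lam] using h)
    have h2 := congrArg (eval fun x : V × Fin 2 => if x = (v₂, 0) then (1 : ℚ) else 0) h1
    simp [h12] at h2
  have h21E : s(v₂, v₁) ∈ E := by rw [Sym2.eq_swap]; exact h12E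
  have hT : {D : V → V → ℂ | ∃ q : V → Fin 2 → ℂ,
      (∀ u v, s(u, v) ∈ E →
        ∑ i, (q u i - q v i) ^ 2 = ∑ i, (p u i - p v i) ^ 2) ∧
      D = fun u v => ∑ i, (q u i - q v i) ^ 2} = Ψ '' Sol := by
    ext D
    constructor
    · rintro ⟨w, hw, rfl⟩
      let x : V → ℂ := fun v => w v 0 + Complex.I * w v 1
      let x' : V → ℂ := fun v => w v 0 - Complex.I * w v 1
      have hD : ∀ u v, ∑ i, (w u i - w v i) ^ 2 = (x u - x v) * (x' u - x' v) := fun u v =>
        sum_iso' _ _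
      have hx : x v₂ - x v₁ ≠ 0 := by
        intro h
        apply lam12
        have := hw v₂ v₁ h21E
        rw [hD, h, zero_mul] at this
        exact this.symm
      obtain ⟨z, hz1, hz2⟩ := exists_pinned v₁ v₂ a
        (fun v => a v₁ + ((a v₂ : ℂ) - a v₁) / (x v₂ - x v₁) * (x v - x v₁))
        (fun v => a v₁ + (x v₂ - x v₁) / ((a v₂ : ℂ) - a v₁) * (x' v - x' v₁))
        (by simp) (by field_simp; ring) (by simp)
      have hΨ : ∀ u v, Ψ z u v = ∑ i, (w u i - w v i) ^ 2 := by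
        intro u v
        simp only [Ψ, hz1, hz2, hD]
        field_simp
        ring
      refine ⟨z, (hmem z).mpr fun u v huv => ?_, ?_⟩
      · rw [hΨ]; exact hw u v huv
      · funext u v; exact hΨ u v
    · rintro ⟨z, hz, rfl⟩
      refine ⟨real z, fun u v huv => ?_, ?_⟩
      · simp only [real]
        rw [sum_iso]
        exact (hmem z).mp hz u v huv
      · funext u v
        simp only [real]
        rw [sum_iso]
  rw [hT]
  have hfib : Sol.ncard ≤ 2 ^ (n + 2) * (Ψ '' Sol).ncard := by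
    rw [Set.ncard_eq_toFinset_card Sol hfin, Set.ncard_eq_toFinset_card _ (hfin.image Ψ),
      Set.Finite.toFinset_image Ψ hfin]
    refine Finset.card_le_mul_card_image _ _ fun D hD => ?_
    obtain ⟨z₀, hz₀, rfl⟩ := Finset.mem_image.mp hD
    have hz₀' : z₀ ∈ Sol := by simpa using hz₀
    have hx : xc v₁ v₂ a z₀ v₂ - xc v₁ v₂ a z₀ v₁ ≠ 0 := by rw [xc_one, xc_two]; exact a12
    have hy0 : yc v₁ v₂ a z₀ v₂ - yc v₁ v₂ a z₀ v₁ ≠ 0 := by
      intro h
      apply lam12
      rw [← (hmem z₀).mp hz₀' v₂ v₁ h21E]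
      simp only [Ψ, h, mul_zero]
    obtain ⟨s₁, hs₁, hs₁'⟩ := pinned_fiber v₁ v₂ a (xc v₁ v₂ a z₀) (yc v₁ v₂ a z₀)
    obtain ⟨s₂, hs₂, hs₂'⟩ := pinned_fiber v₁ v₂ a
      (fun v => xc v₁ v₂ a z₀ v₁ + (xc v₁ v₂ a z₀ v₂ - xc v₁ v₂ a z₀ v₁) /
        (yc v₁ v₂ a z₀ v₂ - yc v₁ v₂ a z₀ v₁) * (yc v₁ v₂ a z₀ v - yc v₁ v₂ a z₀ v₁))
      (fun v => yc v₁ v₂ a z₀ v₁ + (yc v₁ v₂ a z₀ v₂ - yc v₁ v₂ a z₀ v₁) /
        (xc v₁ v₂ a z₀ v₂ - xc v₁ v₂ a z₀ v₁) * (xc v₁ v₂ a z₀ v - xc v₁ v₂ a z₀ v₁))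
    refine (Finset.card_le_card (t := s₁ ∪ s₂) ?_).trans ((Finset.card_union_le _ _).trans ?_)
    · intro z hz
      have hΨ : Ψ z = Ψ z₀ := (Finset.mem_filter.mp hz).2
      rcases fiber_xy v₁ v₂ (xc v₁ v₂ a z₀) (yc v₁ v₂ a z₀) (xc v₁ v₂ a z) (yc v₁ v₂ a z)
        (by rw [xc_one, xc_one]) (by rw [yc_one, yc_one]) (by rw [xc_two, xc_two]) hx hy0
        (fun u v => congrFun (congrFun hΨ u) v) with ⟨e1, e2⟩ | ⟨e1, e2⟩
      · exact Finset.mem_union_left _ (hs₁' z e1 e2)
      · exact Finset.mem_union_right _ (hs₂' z e1 e2)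
    · rw [hc1] at hs₁ hs₂
      rw [pow_succ]
      omega
  rw [hcV] at hcount
  have h5 : 2 ^ (2 * n + 1) ≤ 2 ^ (n + 2) * (Ψ '' Sol).ncard := hcount.trans hfib
  rcases Nat.eq_zero_or_pos n with hn0 | hn0
  · subst hn0
    simp only [zero_add, Nat.reduceSub, pow_zero]
    by_contra hlt
    have : (Ψ '' Sol).ncard = 0 := by omega
    rw [this] at h5
    simp at h5
  · have : 2 * n + 1 = (n + 2) + (n + 2 - 3) := by omega
    rw [this, pow_add] at h5
    exact Nat.le_of_mul_le_mul_left h5 (by positivity)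

/-- Maxwell count: independent rows of the rigidity matrix give the sparsity condition. -/
theorem maxwell {V : Type} [Fintype V] [DecidableEq V] (E : Finset (Sym2 V)) (p : V → Fin 2 → ℂ)
    (hp : ∀ a b, p a 0 = p b 0 → a = b)
    (hli : LinearIndependent ℂ fun (e : E) (x : V × Fin 2) =>
      ∑ u, if (e : Sym2 V) = s(x.1, u) then p x.1 x.2 - p u x.2 else 0)
    (hd : ∀ e ∈ E, ¬ e.IsDiag) (S : Finset V) (hS : 2 ≤ S.card) : ie E S + 3 ≤ 2 * S.card := by
  classical
  obtain ⟨a, ha, b, hb, hab⟩ := Finset.one_lt_card.1 hS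
  have hpab : p a 0 - p b 0 ≠ 0 := sub_ne_zero.2 fun h => hab (hp _ _ h)
  let L : (V × Fin 2 → ℂ) →ₗ[ℂ] (({v // v ∉ S} × Fin 2 → ℂ) × ℂ × ℂ × ℂ) :=
    { toFun := fun r => (fun x => r (x.1.1, x.2), ∑ w ∈ S, r (w, 0), ∑ w ∈ S, r (w, 1),
        ∑ w ∈ S, (p w 0 * r (w, 1) - p w 1 * r (w, 0)))
      map_add' := fun r r' => by
        ext <;> simp [Finset.sum_add_distrib, mul_add, add_sub_add_comm]
      map_smul' := fun c r => by
        ext <;> simp [Finset.mul_sum, mul_sub, mul_left_comm] }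
  have hsur : LinearMap.range L = ⊤ := by
    rw [LinearMap.range_eq_top]
    rintro ⟨g, c0, c1, c2⟩
    let β := (c2 + p a 1 * c0 - p b 0 * c1) / (p a 0 - p b 0)
    refine ⟨fun x => if h : x.1 ∈ S then
      (if x.2 = 0 then (if x.1 = a then c0 else 0)
        else (if x.1 = a then β else 0) + (if x.1 = b then c1 - β else 0)) else g (⟨x.1, h⟩, x.2), ?_⟩
    simp only [L, LinearMap.coe_mk, AddHom.coe_mk, Prod.mk.injEq]
    refine ⟨?_, ?_, ?_, ?_⟩
    · funext x; simp [x.1.2]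
    · rw [Finset.sum_congr rfl fun w hw => by rw [dif_pos hw]]; simp [ha]
    · rw [Finset.sum_congr rfl fun w hw => by rw [dif_pos hw]]; simp [Finset.sum_add_distrib, ha, hb]
    · rw [Finset.sum_congr rfl fun w hw => by rw [dif_pos hw, dif_pos hw]]
      simp only [one_ne_zero, if_false, if_true, mul_add, mul_ite, mul_zero,
        Finset.sum_sub_distrib, Finset.sum_add_distrib, Finset.sum_ite_eq', ha, hb, β]
      field_simp
      ring
  have hk := LinearMap.finrank_range_add_finrank_ker L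
  rw [hsur, finrank_top] at hk
  simp only [Module.finrank_prod, Module.finrank_fintype_fun_eq_card, Module.finrank_self,
    Fintype.card_prod, Fintype.card_fin, Fintype.card_subtype_compl, Fintype.card_coe] at hk
  have hle : S.card ≤ Fintype.card V := Finset.card_le_univ S
  let F := E.filter fun e => e ∈ S.sym2
  have hmem : ∀ e : F, (fun x : V × Fin 2 =>
      ∑ u, if (e : Sym2 V) = s(x.1, u) then p x.1 x.2 - p u x.2 else 0) ∈ LinearMap.ker L := by
    rintro ⟨e, he⟩
    obtain ⟨h1, h2⟩ := Finset.mem_filter.1 he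
    induction e using Sym2.ind with
    | _ s t =>
    have hst : s ≠ t := fun h => hd _ h1 (Sym2.mk_isDiag_iff.2 h)
    obtain ⟨hs, ht⟩ := Finset.mk_mem_sym2_iff.1 h2
    have key : ∀ w i, (∑ u, if s(s, t) = s(w, u) then p w i - p u i else 0) =
        (if w = s then p s i - p t i else 0) + (if w = t then p t i - p s i else 0) := by
      intro w i
      by_cases h3 : w = s
      · subst h3
        simp [hst, hst.symm]
      · by_cases h4 : w = t
        · subst h4
          simp [hst, hst.symm]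
        · simp [h3, h4, Ne.symm h3, Ne.symm h4]
    rw [LinearMap.mem_ker]
    simp only [L, LinearMap.coe_mk, AddHom.coe_mk, key, Prod.mk_eq_zero]
    refine ⟨?_, ?_, ?_, ?_⟩
    · funext x
      have h3 : x.1.1 ≠ s := fun h => x.1.2 (h ▸ hs)
      have h4 : x.1.1 ≠ t := fun h => x.1.2 (h ▸ ht)
      simp [h3, h4]
    · simp [Finset.sum_add_distrib, hs, ht]
    · simp [Finset.sum_add_distrib, hs, ht]
    · simp only [mul_add, mul_ite, mul_zero, Finset.sum_sub_distrib, Finset.sum_add_distrib,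
        Finset.sum_ite_eq', hs, ht, if_true]
      ring
  have hli' : LinearIndependent ℂ fun e : F => (⟨_, hmem e⟩ : LinearMap.ker L) := by
    refine LinearIndependent.of_comp (LinearMap.ker L).subtype ?_
    exact hli.comp (fun e : F => (⟨e.1, (Finset.mem_filter.1 e.2).1⟩ : E))
      fun e e' h => Subtype.ext (congrArg Subtype.val h :)
  have := hli'.fintype_card_le_finrank
  rw [Fintype.card_coe] at this
  unfold ie
  change F.card + 3 ≤ _
  omega

end Pool.Agent.Lib.MP_2127f1_co
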