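import Pool.Agent.Lib.MP_2127f1_co.Finite

/-!
A Bezout-type lower bound by comparing Hilbert functions.
-/

namespace Pool.Agent.Lib.MP_2127f1_co

open MvPolynomial

variable {σ τ : Type}

/-- The exponent vectors of degree at most `n`. -/
noncomputable def expo (τ : Type) [Finite τ] (n : ℕ) : Finset (τ →₀ ℕ) :=
  (Finsupp.finite_of_degree_le (σ := τ) n).toFinset

theorem mem_expo [Finite τ] {n : ℕ} {u : τ →₀ ℕ} : u ∈ expo τ n ↔ u.degree ≤ n := by
  simp [expo]

theorem card_expo_pos [Finite τ] (n : ℕ) : 0 < (expo τ n).card :=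
  Finset.card_pos.mpr ⟨0, mem_expo.mpr (by simp)⟩

theorem card_expo_le [Fintype τ] (n : ℕ) : (expo τ n).card ≤ (n + 1) ^ Fintype.card τ := by
  classical
  have : (expo τ n).card ≤ (Fintype.piFinset fun _ : τ => Finset.range (n + 1)).card := by
    refine Finset.card_le_card_of_injOn (fun u => (u : τ → ℕ)) ?_ ?_
    · intro u hu
      have hu' := mem_expo.mp hu
      simp only [Finset.mem_coe, Fintype.mem_piFinset, Finset.mem_range]
      intro i
      have := Finsupp.le_degree i u
      omega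
    · intro u _ u' _ h
      exact DFunLike.coe_injective h
  simpa using this

theorem growth (a : ℕ → ℕ) (m M N C : ℕ) (hpos : 0 < a 0) (hle : ∀ n, a n ≤ (n + 1) ^ m)
    (h : ∀ d, M * a d ≤ N * a (d + C)) : M ≤ N := by
  by_contra hlt
  push Not at hlt
  have h1 : ∀ j, (N + 1) ^ j ≤ N ^ j * a (j * C) := by
    intro j
    induction j with
    | zero => simpa using Nat.succ_le_of_lt hpos
    | succ j ih =>
        calc (N + 1) ^ (j + 1) = (N + 1) ^ j * (N + 1) := pow_succ _ _
          _ ≤ N ^ j * a (j * C) * (N + 1) := Nat.mul_le_mul_right _ ih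
          _ = N ^ j * ((N + 1) * a (j * C)) := by ring
          _ ≤ N ^ j * (M * a (j * C)) := by gcongr; omega
          _ ≤ N ^ j * (N * a (j * C + C)) := Nat.mul_le_mul_left _ (h _)
          _ = N ^ (j + 1) * a ((j + 1) * C) := by rw [add_mul, one_mul]; ring
  rcases Nat.eq_zero_or_pos N with hN | hN
  · have := h1 1
    simp [hN] at this
  have hNr : (0 : ℝ) < N := by exact_mod_cast hN
  have hr : (1 : ℝ) < ((N : ℝ) + 1) / N := by
    rw [lt_div_iff₀ hNr]; linarith
  have ht := (tendsto_pow_const_div_const_pow_of_one_lt m hr).const_mul (((C : ℝ) + 1) ^ m)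
  rw [mul_zero] at ht
  have hev := (ht.eventually (gt_mem_nhds (show (0 : ℝ) < 1 by norm_num))).and
    (Filter.eventually_ge_atTop 1)
  obtain ⟨j, hj, hj1⟩ := hev.exists
  have h2 : (N + 1) ^ j ≤ N ^ j * ((C + 1) * j) ^ m := by
    refine (h1 j).trans (Nat.mul_le_mul_left _ ((hle _).trans ?_))
    refine Nat.pow_le_pow_left ?_ _
    nlinarith
  have h3 : ((N : ℝ) + 1) ^ j ≤ (N : ℝ) ^ j * (((C : ℝ) + 1) * j) ^ m := by exact_mod_cast h2
  have h4 : (0 : ℝ) < (((N : ℝ) + 1) / N) ^ j := by positivity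
  rw [← mul_div_assoc, div_lt_one h4, div_pow, lt_div_iff₀ (by positivity), ← mul_pow] at hj
  linarith

theorem exists_shift (q : τ → MvPolynomial σ ℚ) (v : Set (MvPolynomial σ ℚ))
    {w : MvPolynomial σ ℚ} (hw : w ∈ Submodule.span (Algebra.adjoin ℚ (Set.range q)) v) :
    ∃ C, w ∈ filt q v C := by
  induction hw using Submodule.span_induction with
  | mem w hw => exact ⟨0, mem_filt q v 0 hw⟩
  | zero => exact ⟨0, Submodule.zero_mem _⟩
  | add w w' _ _ hw hw' =>
      obtain ⟨C, hC⟩ := hw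
      obtain ⟨C', hC'⟩ := hw'
      exact ⟨max C C', Submodule.add_mem _ (filt_mono q v (le_max_left _ _) hC)
        (filt_mono q v (le_max_right _ _) hC')⟩
  | smul c w _ hw =>
      obtain ⟨C, hC⟩ := hw
      obtain ⟨c, hc⟩ := c
      have hc' := hc
      rw [Algebra.adjoin_range_eq_range_aeval] at hc'
      obtain ⟨P, rfl⟩ := hc'
      exact ⟨P.totalDegree + C, aeval_mul_mem_filt q v P C hC⟩

theorem exists_independent [Fintype σ] [Fintype τ] (q : τ → MvPolynomial σ ℚ)
    (hq : ∀ e, (q e).IsHomogeneous 2)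
    (h0 : ∀ x : σ → ℂ, (∀ e, aeval x (q e) = 0) → x = 0)
    (hcard : Fintype.card τ = Fintype.card σ) :
    ∃ (I : Type) (_ : Fintype I) (r : I → (σ →₀ ℕ)), 2 ^ Fintype.card σ ≤ Fintype.card I ∧
      LinearIndependent (Algebra.adjoin ℚ (Set.range q))
        (fun s : I => (monomial (r s) (1 : ℚ) : MvPolynomial σ ℚ)) := by
  classical
  obtain ⟨D, hD⟩ := exists_filt q hq h0
  let S := Algebra.adjoin ℚ (Set.range q)
  let L : Finset (σ →₀ ℕ) := (Finsupp.finite_of_degree_lt (σ := σ) D).toFinset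
  let v : L → MvPolynomial σ ℚ := fun s => monomial (s : σ →₀ ℕ) (1 : ℚ)
  obtain ⟨J, hJ, hmax⟩ := exists_maximal_linearIndepOn S v
  refine ⟨J, inferInstance, fun s => ((s : L) : σ →₀ ℕ), ?_, hJ⟩
  -- the common multiplier
  have hmul : ∀ s : L, ∃ a : S, a ≠ 0 ∧ a • v s ∈ Submodule.span S (v '' J) := by
    intro s
    by_cases hs : s ∈ J
    · exact ⟨1, one_ne_zero, by rw [one_smul]; exact Submodule.subset_span ⟨s, hs, rfl⟩⟩
    · exact hmax s hs
  choose a ha hav using hmul
  let h : S := ∏ s, a s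
  have hh : h ≠ 0 := Finset.prod_ne_zero_iff.mpr fun s _ => ha s
  have hhv : ∀ s : L, h • v s ∈ Submodule.span S (v '' J) := by
    intro s
    have : h = (∏ t ∈ Finset.univ.erase s, a t) * a s :=
      (Finset.prod_erase_mul _ _ (Finset.mem_univ s)).symm
    rw [this, mul_smul]
    exact Submodule.smul_mem _ _ (hav s)
  choose C hC using fun s => exists_shift q _ (hhv s)
  let C₀ := Finset.univ.sup C
  have hshift : ∀ n, ∀ f ∈ filt q (lowMon σ D) n,
      (h : MvPolynomial σ ℚ) * f ∈ filt q (v '' J) (n + C₀) := by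
    intro n f hf
    induction hf using Submodule.span_induction with
    | mem f hf =>
        obtain ⟨u, w, hu, ⟨s, hs, rfl⟩, rfl⟩ := hf
        have hsL : s ∈ L := by simpa [L] using hs
        have h1 := monomial_mul_mem_filt q _ u _ (hC ⟨s, hsL⟩)
        have h2 : C ⟨s, hsL⟩ ≤ C₀ := Finset.le_sup (f := C) (Finset.mem_univ _)
        rw [mul_left_comm]
        exact filt_mono q _ (by omega) h1
    | zero => simp
    | add f g _ _ hf hg => rw [mul_add]; exact Submodule.add_mem _ hf hg
    | smul c f _ hf => rw [mul_smul_comm]; exact Submodule.smul_mem _ c hf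
  obtain ⟨eqv⟩ : Nonempty (τ ≃ σ) := ⟨Fintype.equivOfCardEq hcard⟩
  refine growth (fun n => (expo τ n).card) (Fintype.card τ) _ _ (Fintype.card σ + C₀)
    (card_expo_pos 0) card_expo_le fun d => ?_
  -- the independent family
  let ex : (σ → Fin 2) × expo τ d → (σ →₀ ℕ) := fun p =>
    2 • Finsupp.mapDomain eqv (p.2 : τ →₀ ℕ) +
      Finsupp.equivFunOnFinite.symm (fun i => (p.1 i : ℕ))
  have hex : Function.Injective ex := by
    rintro ⟨ε, t⟩ ⟨ε', t'⟩ hh
    have key : ∀ i, ε i = ε' i ∧ (t : τ →₀ ℕ) (eqv.symm i) = (t' : τ →₀ ℕ) (eqv.symm i) := by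
      intro i
      have h1 := DFunLike.congr_fun hh i
      simp only [ex, Finsupp.coe_add, Finsupp.coe_smul, Pi.add_apply, Pi.smul_apply, smul_eq_mul,
        Finsupp.equivFunOnFinite_symm_apply_apply, Finsupp.mapDomain_equiv_apply] at h1
      have h2 := (ε i).2
      have h3 := (ε' i).2
      exact ⟨Fin.ext (by omega), by omega⟩
    refine Prod.ext (funext fun i => (key i).1) (Subtype.ext ?_)
    ext e
    simpa using (key (eqv e)).2
  have hdeg : ∀ p, (ex p).degree / 2 ≤ d + Fintype.card σ := by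
    rintro ⟨ε, t⟩
    have h1 := mem_expo.mp t.2
    have h2 : (Finsupp.equivFunOnFinite.symm (fun i => (ε i : ℕ)) : σ →₀ ℕ).degree ≤
        Fintype.card σ := by
      rw [Finsupp.degree_eq_sum]
      calc ∑ i, (Finsupp.equivFunOnFinite.symm (fun i => (ε i : ℕ)) : σ →₀ ℕ) i
          ≤ ∑ _i : σ, 1 := Finset.sum_le_sum fun i _ => by
            have := (ε i).2
            simp only [Finsupp.equivFunOnFinite_symm_apply_apply]
            omega
        _ = Fintype.card σ := by simp
    simp only [ex, map_add, map_nsmul, Finsupp.degree_mapDomain, smul_eq_mul]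
    omega
  have hli : LinearIndependent ℚ
      (fun p => (h : MvPolynomial σ ℚ) * monomial (ex p) (1 : ℚ)) := by
    have h1 : LinearIndependent ℚ (fun p => (monomial (ex p) (1 : ℚ) : MvPolynomial σ ℚ)) := by
      have := (basisMonomials σ ℚ).linearIndependent.comp ex hex
      simpa [Function.comp_def] using this
    have hh' : (h : MvPolynomial σ ℚ) ≠ 0 := fun h0 => hh (Subtype.ext h0)
    exact h1.map' (LinearMap.mulLeft ℚ (h : MvPolynomial σ ℚ))
      (LinearMap.ker_eq_bot.mpr (mul_right_injective₀ hh'))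
  let W : Finset (MvPolynomial σ ℚ) :=
    ((Finset.univ : Finset J) ×ˢ expo τ (d + (Fintype.card σ + C₀))).image
      fun p => aeval q (monomial p.2 (1 : ℚ)) * v p.1
  have hW : Set.range (fun p => (h : MvPolynomial σ ℚ) * monomial (ex p) (1 : ℚ)) ≤
      Submodule.span ℚ (W : Set (MvPolynomial σ ℚ)) := by
    rintro _ ⟨p, rfl⟩
    have h1 := hshift _ _ (hD _ _ (isHomogeneous_monomial (d := ex p) (1 : ℚ) rfl))
    have h2 := filt_mono q _ (show (ex p).degree / 2 + C₀ ≤ d + (Fintype.card σ + C₀) by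
      have := hdeg p; omega) h1
    refine Submodule.span_mono ?_ h2
    rintro _ ⟨u, w, hu, ⟨s, hs, rfl⟩, rfl⟩
    simp only [W, Finset.coe_image, Set.mem_image, Finset.mem_coe, Finset.mem_product]
    exact ⟨(⟨s, hs⟩, u), ⟨Finset.mem_univ _, mem_expo.mpr hu⟩, rfl⟩
  have hc := linearIndependent_le_span_aux' _ hli _ hW
  simp only [Fintype.card_prod, Fintype.card_fun, Fintype.card_fin, Fintype.card_coe,
    Finset.coe_sort_coe] at hc
  refine hc.trans (Finset.card_image_le.trans ?_)
  rw [Finset.card_product, Finset.card_univ]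

end Pool.Agent.Lib.MP_2127f1_co
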