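import Pool.Agent.Lib.MP_2127f1_co.Hilbert

/-!
Passing from the lowest-order parts to the polynomials themselves.
-/

namespace Pool.Agent.Lib.MP_2127f1_co

open MvPolynomial

variable {σ τ : Type}

theorem mem_pow_of_isHomogeneous {f : MvPolynomial σ ℚ} {n : ℕ} (hf : f.IsHomogeneous n) :
    f ∈ idealOfVars σ ℚ ^ n := by
  rw [mem_pow_idealOfVars_iff']
  intro x hx
  exact hf.coeff_eq_zero hx.ne

theorem hc_eq_zero_of_mem_pow {f : MvPolynomial σ ℚ} {n m : ℕ} (hf : f ∈ idealOfVars σ ℚ ^ n)
    (h : m < n) : homogeneousComponent m f = 0 := by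
  refine homogeneousComponent_eq_zero' _ _ fun d hd => ?_
  have := (mem_pow_idealOfVars_iff _ _).mp hf d hd
  omega

theorem mul_mem_pow {f g : MvPolynomial σ ℚ} {n m : ℕ} (hf : f ∈ idealOfVars σ ℚ ^ n)
    (hg : g ∈ idealOfVars σ ℚ ^ m) : f * g ∈ idealOfVars σ ℚ ^ (n + m) := by
  rw [pow_add]; exact Ideal.mul_mem_mul hf hg

theorem mem_pow_mono {f : MvPolynomial σ ℚ} {n m : ℕ} (hf : f ∈ idealOfVars σ ℚ ^ n)
    (h : m ≤ n) : f ∈ idealOfVars σ ℚ ^ m :=
  Ideal.pow_le_pow_right h hf

theorem aeval_monomial_sub (q c : τ → MvPolynomial σ ℚ) (hq : ∀ e, (q e).IsHomogeneous 2)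
    (hc : ∀ e, (c e).IsHomogeneous 3) (u : τ →₀ ℕ) :
    aeval (fun e => q e + c e) (monomial u (1 : ℚ)) - aeval q (monomial u (1 : ℚ)) ∈
      idealOfVars σ ℚ ^ (2 * u.degree + 1) := by
  generalize hn : u.degree = n
  induction n generalizing u with
  | zero =>
      have : u = 0 := (Finsupp.degree_eq_zero_iff u).mp hn
      subst this
      simp
  | succ n ih =>
      have hu : u ≠ 0 := by
        rintro rfl
        simp at hn
      obtain ⟨e, he⟩ := Finsupp.support_nonempty_iff.mpr hu
      have hle : Finsupp.single e 1 ≤ u := by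
        rw [Finsupp.single_le_iff]
        exact Nat.one_le_iff_ne_zero.mpr (Finsupp.mem_support_iff.mp he)
      obtain ⟨u', rfl⟩ := le_iff_exists_add'.mp hle
      have hd : u'.degree = n := by
        rw [map_add, Finsupp.degree_single] at hn
        omega
      have h1 := ih u' hd
      have h2 : aeval q (monomial u' (1 : ℚ)) ∈ idealOfVars σ ℚ ^ (2 * n) :=
        mem_pow_of_isHomogeneous ((isHomogeneous_monomial (1 : ℚ) hd).aeval q hq)
      have h3 : q e + c e ∈ idealOfVars σ ℚ ^ 2 :=
        Ideal.add_mem _ (mem_pow_of_isHomogeneous (hq e))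
          (mem_pow_mono (mem_pow_of_isHomogeneous (hc e)) (by norm_num))
      rw [monomial_add_single, pow_one, map_mul, map_mul, aeval_X, aeval_X]
      have : aeval (fun e => q e + c e) (monomial u' (1 : ℚ)) * (q e + c e) -
          aeval q (monomial u' (1 : ℚ)) * q e =
          (aeval (fun e => q e + c e) (monomial u' (1 : ℚ)) - aeval q (monomial u' (1 : ℚ))) *
            (q e + c e) + aeval q (monomial u' (1 : ℚ)) * c e := by ring
      rw [this]
      exact Ideal.add_mem _ (mem_pow_mono (mul_mem_pow h1 h3) (by omega))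
        (mem_pow_mono (mul_mem_pow h2 (mem_pow_of_isHomogeneous (hc e))) (by omega))

theorem aeval_sub_hc (q c : τ → MvPolynomial σ ℚ) (hq : ∀ e, (q e).IsHomogeneous 2)
    (hc : ∀ e, (c e).IsHomogeneous 3) (k : ℕ) (P : MvPolynomial τ ℚ)
    (hP : ∀ u ∈ P.support, k ≤ u.degree) :
    aeval (fun e => q e + c e) P - aeval q (homogeneousComponent k P) ∈
      idealOfVars σ ℚ ^ (2 * k + 1) := by
  conv => enter [2, 1, 2]; rw [P.as_sum]
  conv => enter [2, 2, 2, 2]; rw [P.as_sum]
  rw [map_sum, map_sum, map_sum, ← Finset.sum_sub_distrib]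
  refine Ideal.sum_mem _ fun u hu => ?_
  have : (monomial u (coeff u P) : MvPolynomial τ ℚ) = coeff u P • monomial u 1 := by
    rw [smul_monomial, smul_eq_mul, mul_one]
  rw [this, map_smul, map_smul, map_smul, ← smul_sub]
  refine Submodule.smul_of_tower_mem _ _ ?_
  rw [homogeneousComponent_of_mem (isHomogeneous_monomial (1 : ℚ) rfl)]
  have h1 := aeval_monomial_sub q c hq hc u
  have h0 := hP u hu
  split_ifs with h
  · rw [h]; exact h1
  · have h2 : aeval q (monomial u (1 : ℚ)) ∈ idealOfVars σ ℚ ^ (2 * u.degree) :=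
      mem_pow_of_isHomogeneous ((isHomogeneous_monomial (1 : ℚ) rfl).aeval q hq)
    rw [map_zero, sub_zero]
    have h3 := Ideal.add_mem _ (mem_pow_mono h1 (show 2 * k + 1 ≤ 2 * u.degree + 1 by omega))
      (mem_pow_mono h2 (show 2 * k + 1 ≤ 2 * u.degree by omega))
    simpa using h3

theorem transfer {I : Type} [Fintype I] (q c : τ → MvPolynomial σ ℚ)
    (hq : ∀ e, (q e).IsHomogeneous 2) (hc : ∀ e, (c e).IsHomogeneous 3)
    (v : I → MvPolynomial σ ℚ) (d : I → ℕ) (hv : ∀ i, (v i).IsHomogeneous (d i))
    (hind : ∀ P : I → MvPolynomial τ ℚ, ∑ i, aeval q (P i) * v i = 0 → ∀ i, P i = 0)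
    (P : I → MvPolynomial τ ℚ) (hP : ∑ i, aeval (fun e => q e + c e) (P i) * v i = 0) :
    ∀ i, P i = 0 := by
  classical
  have key : ∀ μ : ℕ, ∀ i, ∀ u ∈ (P i).support, μ ≤ 2 * u.degree + d i := by
    intro μ
    induction μ with
    | zero => intro i u _; exact Nat.zero_le _
    | succ μ ih =>
        let k : I → ℕ := fun i => (μ - d i + 1) / 2
        have hk : ∀ i, ∀ u ∈ (P i).support, k i ≤ u.degree := by
          intro i u hu
          have := ih i u hu
          simp only [k]
          omega
        let P' : I → MvPolynomial τ ℚ := fun i =>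
          if μ = 2 * k i + d i then homogeneousComponent (k i) (P i) else 0
        have hsum : ∑ i, aeval q (P' i) * v i = 0 := by
          have h1 := congrArg (homogeneousComponent μ) hP
          rw [map_sum, map_zero] at h1
          rw [← h1]
          refine Finset.sum_congr rfl fun i _ => ?_
          have h2 := mul_mem_pow (aeval_sub_hc q c hq hc (k i) (P i) (hk i))
            (mem_pow_of_isHomogeneous (hv i))
          have h3 := hc_eq_zero_of_mem_pow h2 (show μ < 2 * k i + 1 + d i by
            simp only [k]; omega)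
          rw [sub_mul, map_sub, sub_eq_zero] at h3
          rw [h3, homogeneousComponent_of_mem
            (((homogeneousComponent_isHomogeneous (k i) (P i)).aeval q hq).mul (hv i))]
          simp only [P']
          split_ifs <;> simp
        intro i u hu
        have h4 := hind P' hsum i
        have h5 := ih i u hu
        by_contra hlt
        have h6 : μ = 2 * u.degree + d i := by omega
        have h7 : k i = u.degree := by simp only [k]; omega
        have h8 : homogeneousComponent (k i) (P i) = 0 := by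
          simpa [P', h7, ← h6] using h4
        have h9 := congrArg (coeff u) h8
        rw [coeff_homogeneousComponent, if_pos h7.symm, coeff_zero] at h9
        exact mem_support_iff.mp hu h9
  intro i
  by_contra hne
  obtain ⟨u, hu⟩ := support_nonempty.mpr hne
  have := key (2 * u.degree + d i + 1) i u hu
  omega

theorem exists_independent' [Fintype σ] [Fintype τ] (q c : τ → MvPolynomial σ ℚ)
    (hq : ∀ e, (q e).IsHomogeneous 2) (hc : ∀ e, (c e).IsHomogeneous 3)
    (h0 : ∀ x : σ → ℂ, (∀ e, aeval x (q e) = 0) → x = 0)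
    (hcard : Fintype.card τ = Fintype.card σ) :
    ∃ (I : Type) (_ : Fintype I) (v : I → MvPolynomial σ ℚ),
      2 ^ Fintype.card σ ≤ Fintype.card I ∧
      ∀ P : I → MvPolynomial τ ℚ, ∑ i, aeval (fun e => q e + c e) (P i) * v i = 0 →
        ∀ i, P i = 0 := by
  obtain ⟨I, hI, r, hcardI, hli⟩ := exists_independent q hq h0 hcard
  have hai := algebraicIndependent_of_quadratic q hq h0 hcard
  refine ⟨I, hI, fun s => monomial (r s) 1, hcardI,
    transfer q c hq hc _ (fun s => (r s).degree) (fun s => isHomogeneous_monomial 1 rfl) ?_⟩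
  intro P hP i
  have hm : ∀ s, aeval q (P s) ∈ Algebra.adjoin ℚ (Set.range q) := by
    intro s
    rw [Algebra.adjoin_range_eq_range_aeval]
    exact ⟨_, rfl⟩
  have h1 := Fintype.linearIndependent_iff.mp hli (fun s => ⟨_, hm s⟩) hP i
  exact hai.eq_zero_of_aeval_eq_zero _ (congrArg Subtype.val h1)

theorem algebraicIndependent_add [Fintype σ] [Fintype τ] (q c : τ → MvPolynomial σ ℚ)
    (hq : ∀ e, (q e).IsHomogeneous 2) (hc : ∀ e, (c e).IsHomogeneous 3)
    (h0 : ∀ x : σ → ℂ, (∀ e, aeval x (q e) = 0) → x = 0)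
    (hcard : Fintype.card τ = Fintype.card σ) :
    AlgebraicIndependent ℚ (fun e => q e + c e) := by
  have hai := algebraicIndependent_of_quadratic q hq h0 hcard
  rw [algebraicIndependent_iff]
  intro P hP
  refine transfer (I := Unit) q c hq hc (fun _ => 1) (fun _ => 0) (fun _ => isHomogeneous_one _ _)
    ?_ (fun _ => P) (by simpa using hP) ()
  intro P' hP' i
  exact hai.eq_zero_of_aeval_eq_zero _ (by simpa using hP')

end Pool.Agent.Lib.MP_2127f1_co
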