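import Mathlib

/-!
Laman graphs and the Henneberg reductions.
-/

namespace Pool.Agent.Lib.MP_2127f1_co

open Finset

variable {V : Type} [DecidableEq V]

/-- The number of edges of `E` with both ends in `X`. -/
def ie (E : Finset (Sym2 V)) (X : Finset V) : ℕ := (E.filter fun e => e ∈ X.sym2).card

/-- The Laman conditions for the graph with vertex set `S` and edge set `E`. -/
structure Laman (S : Finset V) (E : Finset (Sym2 V)) : Prop where
  loopless : ∀ e ∈ E, ¬ e.IsDiag
  sub : ∀ e ∈ E, e ∈ S.sym2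
  count : E.card + 3 = 2 * S.card
  sparse : ∀ X ⊆ S, 2 ≤ X.card → ie E X + 3 ≤ 2 * X.card

theorem ie_submod (E : Finset (Sym2 V)) (X Y : Finset V) :
    ie E X + ie E Y ≤ ie E (X ∪ Y) + ie E (X ∩ Y) := by
  unfold ie
  rw [← card_union_add_card_inter]
  refine Nat.add_le_add (card_le_card ?_) (card_le_card ?_)
  · intro e he
    simp only [mem_union, mem_filter, mem_sym2_iff] at he ⊢
    rcases he with ⟨h1, h2⟩ | ⟨h1, h2⟩
    · exact ⟨h1, fun a ha => Or.inl (h2 a ha)⟩
    · exact ⟨h1, fun a ha => Or.inr (h2 a ha)⟩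
  · intro e he
    simp only [mem_inter, mem_filter, mem_sym2_iff] at he ⊢
    exact ⟨he.1.1, fun a ha => ⟨he.1.2 a ha, he.2.2 a ha⟩⟩

theorem disjoint_of_card_le_one {E : Finset (Sym2 V)} (hE : ∀ e ∈ E, ¬ e.IsDiag) {X Y : Finset V}
    (h : (X ∩ Y).card ≤ 1) :
    Disjoint (E.filter fun e => e ∈ X.sym2) (E.filter fun e => e ∈ Y.sym2) := by
  rw [disjoint_left]
  intro e h1 h2
  induction e using Sym2.ind with
  | _ a b =>
    simp only [mem_filter, mk_mem_sym2_iff] at h1 h2
    apply hE _ h1.1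
    rw [Sym2.mk_isDiag_iff]
    exact card_le_one.mp h a (mem_inter.mpr ⟨h1.2.1, h2.2.1⟩) b (mem_inter.mpr ⟨h1.2.2, h2.2.2⟩)

theorem ie_three {E : Finset (Sym2 V)} (hE : ∀ e ∈ E, ¬ e.IsDiag) {X Y Z : Finset V}
    (h1 : (X ∩ Y).card ≤ 1) (h2 : (X ∩ Z).card ≤ 1) (h3 : (Y ∩ Z).card ≤ 1) :
    ie E X + ie E Y + ie E Z ≤ ie E (X ∪ Y ∪ Z) := by
  unfold ie
  rw [← card_union_of_disjoint (disjoint_of_card_le_one hE h1), ← card_union_of_disjoint
    (disjoint_union_left.mpr ⟨disjoint_of_card_le_one hE h2, disjoint_of_card_le_one hE h3⟩)]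
  refine card_le_card ?_
  intro e he
  simp only [mem_union, mem_filter, mem_sym2_iff] at he ⊢
  rcases he with (⟨h1, h2⟩ | ⟨h1, h2⟩) | ⟨h1, h2⟩
  · exact ⟨h1, fun a ha => Or.inl (Or.inl (h2 a ha))⟩
  · exact ⟨h1, fun a ha => Or.inl (Or.inr (h2 a ha))⟩
  · exact ⟨h1, fun a ha => Or.inr (h2 a ha)⟩

theorem ie_mono {E E' : Finset (Sym2 V)} (h : E ⊆ E') (X : Finset V) : ie E X ≤ ie E' X :=
  card_le_card (filter_subset_filter _ h)

theorem ie_insert_le (E : Finset (Sym2 V)) (e : Sym2 V) (X : Finset V) :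
    ie (insert e E) X ≤ ie E X + 1 := by
  unfold ie
  rw [filter_insert]
  split_ifs
  · exact card_insert_le _ _
  · omega

theorem ie_insert_of_notMem (E : Finset (Sym2 V)) (e : Sym2 V) (X : Finset V)
    (h : e ∉ X.sym2) : ie (insert e E) X = ie E X := by
  unfold ie
  rw [filter_insert, if_neg h]

theorem exists_small_degree {S : Finset V} {E : Finset (Sym2 V)} (h : Laman S E) :
    ∃ w ∈ S, (E.filter fun e => w ∈ e).card ≤ 3 := by
  by_contra hcon
  push Not at hcon
  have h1 : ∑ w ∈ S, (E.filter fun e => w ∈ e).card = ∑ e ∈ E, (S.filter fun w => w ∈ e).card := by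
    simp only [card_filter]
    exact sum_comm
  have h2 : ∑ e ∈ E, (S.filter fun w => w ∈ e).card ≤ ∑ _e ∈ E, 2 := by
    refine sum_le_sum fun e _ => ?_
    induction e using Sym2.ind with
    | _ a b =>
      refine (card_le_card (t := {a, b}) ?_).trans card_le_two
      intro w hw
      simpa using (mem_filter.mp hw).2
  have h3 : ∑ _w ∈ S, 4 ≤ ∑ w ∈ S, (E.filter fun e => w ∈ e).card :=
    sum_le_sum fun w hw => hcon w hw
  simp only [sum_const, smul_eq_mul] at h2 h3
  have := h.count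
  omega

theorem filter_notMem_eq {S : Finset V} {E : Finset (Sym2 V)} (h : Laman S E) (w : V) :
    (E.filter fun e => w ∉ e) = E.filter fun e => e ∈ (S.erase w).sym2 := by
  refine filter_congr fun e he => ?_
  have h1 := mem_sym2_iff.mp (h.sub e he)
  rw [mem_sym2_iff]
  constructor
  · intro hw a ha
    exact mem_erase.mpr ⟨fun h => hw (h ▸ ha), h1 a ha⟩
  · intro h2 hw
    exact (mem_erase.mp (h2 w hw)).1 rfl

theorem edge_at {S : Finset V} {E : Finset (Sym2 V)} (h : Laman S E) {w : V} {e : Sym2 V}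
    (he : e ∈ E.filter fun e => w ∈ e) : ∃ u, u ≠ w ∧ u ∈ S ∧ e = s(w, u) := by
  obtain ⟨he1, he2⟩ := mem_filter.mp he
  obtain ⟨u, rfl⟩ := Sym2.mem_iff_exists.mp he2
  refine ⟨u, ?_, (mk_mem_sym2_iff.mp (h.sub _ he1)).2, rfl⟩
  intro hu
  exact h.loopless _ he1 (Sym2.mk_isDiag_iff.mpr hu.symm)

/-- Every Laman graph on at least three vertices reduces by an inverse Henneberg move. -/
theorem henneberg {S : Finset V} {E : Finset (Sym2 V)} (h : Laman S E) (h3 : 3 ≤ S.card) :
    ∃ w ∈ S, (∃ u v, u ≠ v ∧ u ∈ S.erase w ∧ v ∈ S.erase w ∧ s(w, u) ∈ E ∧ s(w, v) ∈ E ∧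
        Laman (S.erase w) (E.filter fun e => w ∉ e)) ∨
      (∃ u v z, u ≠ v ∧ u ≠ z ∧ v ≠ z ∧ u ∈ S.erase w ∧ v ∈ S.erase w ∧ z ∈ S.erase w ∧
        s(w, u) ∈ E ∧ s(w, v) ∈ E ∧ s(w, z) ∈ E ∧
        Laman (S.erase w) (insert s(u, v) (E.filter fun e => w ∉ e))) := by
  obtain ⟨w, hw, hdeg⟩ := exists_small_degree h
  refine ⟨w, hw, ?_⟩
  set E₀ := E.filter fun e => w ∉ e with hE₀
  have hcard : (E.filter fun e => w ∈ e).card + E₀.card = E.card :=
    card_filter_add_card_filter_not _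
  have hS : (S.erase w).card + 1 = S.card := card_erase_add_one hw
  have hcount := h.count
  have hE₀le : E₀.card + 3 ≤ 2 * (S.erase w).card := by
    have := h.sparse (S.erase w) (erase_subset _ _) (by omega)
    rwa [ie, ← filter_notMem_eq h w] at this
  have hloop : ∀ e ∈ E₀, ¬ e.IsDiag := fun e he => h.loopless e (mem_filter.mp he).1
  have hsub : ∀ e ∈ E₀, e ∈ (S.erase w).sym2 := by
    intro e he
    rw [hE₀, filter_notMem_eq h w] at he
    exact (mem_filter.mp he).2
  have hsparse : ∀ X ⊆ S.erase w, 2 ≤ X.card → ie E₀ X + 3 ≤ 2 * X.card := fun X hX h2 =>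
    (Nat.add_le_add_right (ie_mono (filter_subset _ _) X) 3).trans
      (h.sparse X (hX.trans (erase_subset _ _)) h2)
  by_cases hd : (E.filter fun e => w ∈ e).card = 2
  · left
    obtain ⟨e₁, e₂, hne, hE⟩ := card_eq_two.mp hd
    obtain ⟨u, hu, huS, rfl⟩ := edge_at h (w := w) (e := e₁) (by rw [hE]; simp)
    obtain ⟨v, hv, hvS, rfl⟩ := edge_at h (w := w) (e := e₂) (by rw [hE]; simp)
    have h1 : s(w, u) ∈ E.filter fun e => w ∈ e := by rw [hE]; simp
    have h2 : s(w, v) ∈ E.filter fun e => w ∈ e := by rw [hE]; simp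
    exact ⟨u, v, fun huv => hne (huv ▸ rfl), mem_erase.mpr ⟨hu, huS⟩, mem_erase.mpr ⟨hv, hvS⟩,
      (mem_filter.mp h1).1, (mem_filter.mp h2).1, hloop, hsub, by omega, hsparse⟩
  · right
    have hd3 : (E.filter fun e => w ∈ e).card = 3 := by omega
    obtain ⟨e₁, e₂, e₃, h12, h13, h23, hE⟩ := card_eq_three.mp hd3
    obtain ⟨u, hu, huS, rfl⟩ := edge_at h (w := w) (e := e₁) (by rw [hE]; simp)
    obtain ⟨v, hv, hvS, rfl⟩ := edge_at h (w := w) (e := e₂) (by rw [hE]; simp)
    obtain ⟨z, hz, hzS, rfl⟩ := edge_at h (w := w) (e := e₃) (by rw [hE]; simp)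
    have h1 : s(w, u) ∈ E := (mem_filter.mp (show s(w, u) ∈ E.filter fun e => w ∈ e by
      rw [hE]; simp)).1
    have h2 : s(w, v) ∈ E := (mem_filter.mp (show s(w, v) ∈ E.filter fun e => w ∈ e by
      rw [hE]; simp)).1
    have h3' : s(w, z) ∈ E := (mem_filter.mp (show s(w, z) ∈ E.filter fun e => w ∈ e by
      rw [hE]; simp)).1
    have huv : u ≠ v := fun huv => h12 (huv ▸ rfl)
    have huz : u ≠ z := fun huv => h13 (huv ▸ rfl)
    have hvz : v ≠ z := fun huv => h23 (huv ▸ rfl)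
    have hu' : u ∈ S.erase w := mem_erase.mpr ⟨hu, huS⟩
    have hv' : v ∈ S.erase w := mem_erase.mpr ⟨hv, hvS⟩
    have hz' : z ∈ S.erase w := mem_erase.mpr ⟨hz, hzS⟩
    -- a set containing the three neighbours is not tight
    have hnot : ∀ X ⊆ S.erase w, u ∈ X → v ∈ X → z ∈ X → ie E₀ X + 4 ≤ 2 * X.card := by
      intro X hX huX hvX hzX
      have hwX : w ∉ X := fun hw' => (mem_erase.mp (hX hw')).1 rfl
      have hX2 : 2 ≤ X.card := one_lt_card.mpr ⟨u, huX, v, hvX, huv⟩
      have h4 := h.sparse (insert w X) (insert_subset hw (hX.trans (erase_subset _ _)))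
        (by rw [card_insert_of_notMem hwX]; omega)
      rw [card_insert_of_notMem hwX] at h4
      have h5 : ie E₀ X + 3 ≤ ie E (insert w X) := by
        unfold ie
        rw [← hd3, ← card_union_of_disjoint]
        · refine card_le_card ?_
          intro e he
          rcases mem_union.mp he with he | he
          · obtain ⟨h6, h7⟩ := mem_filter.mp he
            exact mem_filter.mpr ⟨(mem_filter.mp h6).1, sym2_mono (subset_insert _ _) h7⟩
          · refine mem_filter.mpr ⟨(mem_filter.mp he).1, ?_⟩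
            rw [hE] at he
            simp only [mem_insert, mem_singleton] at he
            rcases he with rfl | rfl | rfl <;> simp [huX, hvX, hzX]
        · rw [disjoint_left]
          intro e he1 he2
          exact (mem_filter.mp (mem_filter.mp he1).1).2 (mem_filter.mp he2).2
      omega
    -- adding an edge between two vertices in no common tight set
    have hadd : ∀ x y, x ≠ y → x ∈ S.erase w → y ∈ S.erase w →
        (∀ X ⊆ S.erase w, x ∈ X → y ∈ X → ie E₀ X + 4 ≤ 2 * X.card) →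
        Laman (S.erase w) (insert s(x, y) E₀) := by
      intro x y hxy hx hy hX
      have hn : s(x, y) ∉ E₀ := by
        intro hmem
        have h6 := hX {x, y} (by
          intro t ht
          simp only [mem_insert, mem_singleton] at ht
          rcases ht with rfl | rfl <;> assumption) (by simp) (by simp)
        rw [card_pair hxy] at h6
        have h7 : 0 < ie E₀ {x, y} := card_pos.mpr ⟨s(x, y), mem_filter.mpr ⟨hmem, by simp⟩⟩
        omega
      refine ⟨?_, ?_, ?_, ?_⟩
      · intro e he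
        rcases mem_insert.mp he with rfl | he
        · rwa [Sym2.mk_isDiag_iff]
        · exact hloop e he
      · intro e he
        rcases mem_insert.mp he with rfl | he
        · exact mk_mem_sym2_iff.mpr ⟨hx, hy⟩
        · exact hsub e he
      · rw [card_insert_of_notMem hn]; omega
      · intro X hXS h2X
        by_cases hin : s(x, y) ∈ X.sym2
        · have h6 := hX X hXS (mk_mem_sym2_iff.mp hin).1 (mk_mem_sym2_iff.mp hin).2
          have h7 := ie_insert_le E₀ s(x, y) X
          omega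
        · rw [ie_insert_of_notMem _ _ _ hin]
          exact hsparse X hXS h2X
    by_cases c1 : ∀ X ⊆ S.erase w, u ∈ X → v ∈ X → ie E₀ X + 4 ≤ 2 * X.card
    · exact ⟨u, v, z, huv, huz, hvz, hu', hv', hz', h1, h2, h3', hadd u v huv hu' hv' c1⟩
    by_cases c2 : ∀ X ⊆ S.erase w, u ∈ X → z ∈ X → ie E₀ X + 4 ≤ 2 * X.card
    · exact ⟨u, z, v, huz, huv, hvz.symm, hu', hz', hv', h1, h3', h2, hadd u z huz hu' hz' c2⟩
    by_cases c3 : ∀ X ⊆ S.erase w, v ∈ X → z ∈ X → ie E₀ X + 4 ≤ 2 * X.card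
    · exact ⟨v, z, u, hvz, huv.symm, huz.symm, hv', hz', hu', h2, h3', h1,
        hadd v z hvz hv' hz' c3⟩
    exfalso
    push Not at c1 c2 c3
    obtain ⟨X, hX, huX, hvX, tX⟩ := c1
    obtain ⟨Y, hY, huY, hzY, tY⟩ := c2
    obtain ⟨Z, hZ, hvZ, hzZ, tZ⟩ := c3
    have hpair : ∀ A B : Finset V, A ⊆ S.erase w → B ⊆ S.erase w →
        2 * A.card < ie E₀ A + 4 → 2 * B.card < ie E₀ B + 4 → u ∈ A ∪ B → v ∈ A ∪ B →
        z ∈ A ∪ B → (A ∩ B).card ≤ 1 := by
      intro A B hA hB tA tB h6 h7 h8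
      by_contra hc
      have h9 := hsparse (A ∩ B) (inter_subset_left.trans hA) (by omega)
      have h10 := hnot (A ∪ B) (union_subset hA hB) h6 h7 h8
      have h11 := ie_submod E₀ A B
      have h12 := card_union_add_card_inter A B
      omega
    have iXY := hpair X Y hX hY tX tY (by simp [huX]) (by simp [hvX]) (by simp [hzY])
    have iXZ := hpair X Z hX hZ tX tZ (by simp [huX]) (by simp [hvX]) (by simp [hzZ])
    have iYZ := hpair Y Z hY hZ tY tZ (by simp [huY]) (by simp [hvZ]) (by simp [hzZ])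
    have h6 := ie_three hloop iXY iXZ iYZ
    have h7 := hnot (X ∪ Y ∪ Z) (union_subset (union_subset hX hY) hZ) (by simp [huX])
      (by simp [hvX]) (by simp [hzY])
    have h8 := card_union_add_card_inter X Y
    have h9 := card_union_add_card_inter (X ∪ Y) Z
    have h10 : 0 < (X ∩ Y).card := card_pos.mpr ⟨u, mem_inter.mpr ⟨huX, huY⟩⟩
    have h11 : 1 < ((X ∪ Y) ∩ Z).card :=
      one_lt_card.mpr ⟨v, by simp [hvX, hvZ], z, by simp [hzY, hzZ], hvz⟩
    omega

end Pool.Agent.Lib.MP_2127f1_co
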