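import Pool.Agent.Lib.MP_2127f1_co.Finite
import Pool.Agent.Lib.MP_2127f1_co.Laman

/-!
Realisations in complex three-space with all edges isotropic: over a suitable rational choice of
the first coordinates, a Laman graph has only the collinear ones.
-/

namespace Pool.Agent.Lib.MP_2127f1_co

open MvPolynomial

variable {V : Type}

/-- The value of the form `a d - b ^ 2` on the difference of two points. -/
noncomputable def nul (a : V → ℚ) (b d : V → ℂ) (u v : V) : ℂ :=
  ((a u : ℂ) - a v) * (d u - d v) - (b u - b v) ^ 2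

theorem nul_symm (a : V → ℚ) (b d : V → ℂ) (u v : V) : nul a b d u v = nul a b d v u := by
  unfold nul; ring

/-- Over `a`, every isotropic realisation of `E` is collinear on `S`. -/
def Stiff (S : Finset V) (E : Finset (Sym2 V)) (a : V → ℚ) : Prop :=
  ∀ b d : V → ℂ, (∀ u v, s(u, v) ∈ E → nul a b d u v = 0) →
    ∃ θ c c' : ℂ, ∀ v ∈ S, b v = θ * a v + c ∧ d v = θ ^ 2 * a v + c'

theorem apex {au av aw bu bv bw du dv dw θ c c' : ℂ} (h : au ≠ av)
    (hu : bu = θ * au + c ∧ du = θ ^ 2 * au + c') (hv : bv = θ * av + c ∧ dv = θ ^ 2 * av + c')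
    (h1 : (aw - au) * (dw - du) - (bw - bu) ^ 2 = 0)
    (h2 : (aw - av) * (dw - dv) - (bw - bv) ^ 2 = 0) :
    bw = θ * aw + c ∧ dw = θ ^ 2 * aw + c' := by
  obtain ⟨rfl, rfl⟩ := hu
  obtain ⟨rfl, rfl⟩ := hv
  have h3 : (av - au) * ((dw - θ ^ 2 * aw - c') - 2 * θ * (bw - θ * aw - c)) = 0 := by
    linear_combination h1 - h2
  have h4 : (dw - θ ^ 2 * aw - c') - 2 * θ * (bw - θ * aw - c) = 0 :=
    (mul_eq_zero.mp h3).resolve_left (sub_ne_zero.mpr h.symm)
  have h5 : (bw - θ * aw - c) ^ 2 = 0 := by
    linear_combination (aw - au) * h4 - h1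
  have h6 : bw - θ * aw - c = 0 := pow_eq_zero_iff (two_ne_zero) |>.mp h5
  exact ⟨by linear_combination h6, by linear_combination h4 + 2 * θ * h6⟩

theorem cones {au av az : ℂ} (huv : au ≠ av) (huz : au ≠ az) (hvz : av ≠ az) (bz dz dv : ℂ)
    (hd : (au - av) * (0 - dv) = 1) :
    {t : ℂ | ∃ β η : ℂ, (t - au) * η - β ^ 2 = 0 ∧ (t - av) * (η - dv) - β ^ 2 = 0 ∧
      (t - az) * (η - dz) - (β - bz) ^ 2 = 0}.Finite := by
  have hne : av - au ≠ 0 := sub_ne_zero.mpr huv.symm
  have hdv : dv ≠ 0 := by
    rintro rfl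
    simp at hd
  let κ : ℂ := -dv ^ 2
  have hκ : κ ≠ 0 := neg_ne_zero.mpr (pow_ne_zero 2 hdv)
  let L : Polynomial ℂ := Polynomial.C ((au - az) * κ) * (Polynomial.X - Polynomial.C av) -
    (Polynomial.X - Polynomial.C az) * Polynomial.C dz - Polynomial.C (bz ^ 2)
  let Φ : Polynomial ℂ := L ^ 2 - Polynomial.C (4 * bz ^ 2 * κ) *
    ((Polynomial.X - Polynomial.C au) * (Polynomial.X - Polynomial.C av))
  have hev : ∀ t, Φ.eval t = ((au - az) * κ * (t - av) - (t - az) * dz - bz ^ 2) ^ 2 -
      4 * bz ^ 2 * κ * ((t - au) * (t - av)) := by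
    intro t
    simp [Φ, L]
  have hΦ : Φ ≠ 0 := by
    intro h0
    have h1 : ∀ t, ((au - az) * κ * (t - av) - (t - az) * dz - bz ^ 2) ^ 2 -
        4 * bz ^ 2 * κ * ((t - au) * (t - av)) = 0 := by
      intro t
      rw [← hev, h0, Polynomial.eval_zero]
    have h2 : (au - az) * κ * (au - av) - (au - az) * dz - bz ^ 2 = 0 := by
      have := h1 au
      simpa using this
    have h3 : (au - az) * κ * (av - av) - (av - az) * dz - bz ^ 2 = 0 := by
      have := h1 av
      rw [sub_self, mul_zero, mul_zero, mul_zero, sub_zero] at this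
      rw [sub_self, mul_zero]
      exact pow_eq_zero_iff (two_ne_zero) |>.mp this
    have h4 : (au - av) * ((au - az) * κ - dz) = 0 := by linear_combination h2 - h3
    have h5 : (au - az) * κ - dz = 0 :=
      (mul_eq_zero.mp h4).resolve_left (sub_ne_zero.mpr huv)
    have h6 : (au - az) * κ * (az - av) - bz ^ 2 = 0 := by
      linear_combination h3 + (az - av) * h5
    have h7 := h1 az
    rw [sub_self, zero_mul, sub_zero, h6] at h7
    have h8 : bz ^ 2 * (κ * ((az - au) * (az - av))) = 0 := by linear_combination (-1 / 4) * h7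
    have h9 : bz ^ 2 = 0 := (mul_eq_zero.mp h8).resolve_right
      (mul_ne_zero hκ (mul_ne_zero (sub_ne_zero.mpr huz.symm) (sub_ne_zero.mpr hvz.symm)))
    rw [h9, sub_zero] at h6
    exact mul_ne_zero (mul_ne_zero (sub_ne_zero.mpr huz) hκ) (sub_ne_zero.mpr hvz.symm) h6
  refine (Polynomial.finite_setOfPred_isRoot hΦ).subset ?_
  rintro t ⟨β, η, h1, h2, h3⟩
  change Φ.IsRoot t
  rw [Polynomial.IsRoot.def, hev]
  have hη : η = κ * (t - av) := by
    simp only [κ]
    linear_combination dv * (h1 - h2) - η * hd
  have hβ : β ^ 2 = κ * ((t - au) * (t - av)) := by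
    rw [hη] at h1
    linear_combination -h1
  have hL : (au - az) * κ * (t - av) - (t - az) * dz - bz ^ 2 = -2 * β * bz := by
    rw [hη] at h1 h3
    linear_combination h3 - h1
  rw [hL]
  linear_combination 4 * bz ^ 2 * hβ

theorem pinned_finite [Fintype V] [DecidableEq V] {S : Finset V} {E : Finset (Sym2 V)}
    {a : V → ℚ} (hst : Stiff S E a) {u v : V} (hu : u ∈ S) (hv : v ∈ S) (huv : a u ≠ a v)
    (y : V → V → ℂ) :
    {p : (V → ℂ) × (V → ℂ) | (∀ x, (x ∉ S ∨ x = u ∨ x = v) → p.1 x = 0) ∧
      (∀ x, (x ∉ S ∨ x = u) → p.2 x = 0) ∧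
      ∀ x x', s(x, x') ∈ E → nul a p.1 p.2 x x' = y x x'}.Finite := by
  classical
  let q : (V × V) ⊕ V ⊕ V → MvPolynomial (V ⊕ V) ℚ := fun e =>
    match e with
    | Sum.inl (x, x') => if s(x, x') ∈ E then
        C (a x - a x') * (X (Sum.inr x) ^ 2 - X (Sum.inr x') ^ 2) -
          (X (Sum.inl x) - X (Sum.inl x')) ^ 2 else 0
    | Sum.inr (Sum.inl x) => if (x ∉ S ∨ x = u ∨ x = v) then X (Sum.inl x) ^ 2 else 0
    | Sum.inr (Sum.inr x) => if (x ∉ S ∨ x = u) then X (Sum.inr x) ^ 2 else 0
  have hq : ∀ e, (q e).IsHomogeneous 2 := by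
    rintro (⟨x, x'⟩ | x | x)
    · simp only [q]
      split_ifs
      · exact (((isHomogeneous_X_pow _ 2).sub (isHomogeneous_X_pow _ 2)).C_mul _).sub
          (((isHomogeneous_X _ _).sub (isHomogeneous_X _ _)).pow 2)
      · exact isHomogeneous_zero _ _ _
    · simp only [q]
      split_ifs
      · exact isHomogeneous_X_pow _ 2
      · exact isHomogeneous_zero _ _ _
    · simp only [q]
      split_ifs
      · exact isHomogeneous_X_pow _ 2
      · exact isHomogeneous_zero _ _ _
  have h0 : ∀ z : V ⊕ V → ℂ, (∀ e, aeval z (q e) = 0) → z = 0 := by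
    intro z hz
    have h1 : ∀ x, (x ∉ S ∨ x = u ∨ x = v) → z (Sum.inl x) = 0 := by
      intro x hx
      simpa [q, hx] using hz (Sum.inr (Sum.inl x))
    have h2 : ∀ x, (x ∉ S ∨ x = u) → z (Sum.inr x) = 0 := by
      intro x hx
      simpa [q, hx] using hz (Sum.inr (Sum.inr x))
    obtain ⟨θ, c, c', h3⟩ := hst (fun x => z (Sum.inl x)) (fun x => z (Sum.inr x) ^ 2) (by
      intro x x' hx
      simpa [q, hx, nul] using hz (Sum.inl (x, x')))
    have hu1 := (h3 u hu).1
    have hu2 := (h3 u hu).2
    have hv1 := (h3 v hv).1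
    simp only [h1 u (by simp), h1 v (by simp), h2 u (by simp)] at hu1 hu2 hv1
    have hθ : θ = 0 := by
      have : θ * ((a u : ℂ) - a v) = 0 := by linear_combination hv1 - hu1
      exact (mul_eq_zero.mp this).resolve_right (sub_ne_zero.mpr (by exact_mod_cast huv))
    have hc : c = 0 := by rw [hθ] at hu1; simpa using hu1.symm
    have hc' : c' = 0 := by rw [hθ] at hu2; simpa using hu2.symm
    funext i
    rcases i with x | x
    · by_cases hx : x ∈ S
      · simpa [hθ, hc] using (h3 x hx).1
      · exact h1 x (Or.inl hx)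
    · by_cases hx : x ∈ S
      · simpa [hθ, hc'] using (h3 x hx).2
      · exact h2 x (Or.inl hx)
  let y' : (V × V) ⊕ V ⊕ V → ℂ := fun e =>
    match e with
    | Sum.inl (x, x') => if s(x, x') ∈ E then y x x' else 0
    | Sum.inr _ => 0
  refine ((finite_fiber q hq h0 y').image
    (fun z => ((fun x => z (Sum.inl x)), fun x => z (Sum.inr x) ^ 2))).subset ?_
  rintro ⟨b, d⟩ ⟨h1, h2, h3⟩
  have hsq : ∀ x, ∃ r : ℂ, r ^ 2 = d x := fun x => IsAlgClosed.exists_pow_nat_eq _ two_pos
  choose r hr using hsq
  refine ⟨Sum.elim b r, ?_, ?_⟩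
  · rintro (⟨x, x'⟩ | x | x)
    · simp only [q, y']
      split_ifs with hx
      · simpa [hr, nul] using h3 x x' hx
      · simp
    · simp only [q, y']
      split_ifs with hx
      · simpa using h1 x hx
      · simp
    · simp only [q, y']
      split_ifs with hx
      · have := h2 x hx
        simp only at this
        simp [hr, this]
      · simp
  · simp [hr]

theorem exists_avoid (B : Set ℂ) (hB : B.Finite) (T : Finset ℚ) :
    ∃ t : ℚ, (t : ℂ) ∉ B ∧ t ∉ T := by
  have h1 : ((fun t : ℚ => (t : ℂ)) ⁻¹' B ∪ (T : Set ℚ)).Finite :=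
    (hB.preimage Rat.cast_injective.injOn).union T.finite_toSet
  obtain ⟨t, ht⟩ := h1.exists_notMem
  simp only [Set.mem_union, Set.mem_preimage, Finset.mem_coe, not_or] at ht
  exact ⟨t, ht⟩

theorem nul_update [DecidableEq V] (a : V → ℚ) (w : V) (t : ℚ) (b d : V → ℂ) {x x' : V}
    (hx : x ≠ w) (hx' : x' ≠ w) : nul (Function.update a w t) b d x x' = nul a b d x x' := by
  simp [nul, Function.update_of_ne hx, Function.update_of_ne hx']

theorem injOn_update [DecidableEq V] {S : Finset V} {w : V} {a : V → ℚ}
    (ha : Set.InjOn a (S.erase w : Finset V)) {t : ℚ} (ht : t ∉ (S.erase w).image a) :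
    Set.InjOn (Function.update a w t) S := by
  intro x hx x' hx' h
  by_cases h1 : x = w <;> by_cases h2 : x' = w
  · rw [h1, h2]
  · exfalso
    rw [h1, Function.update_self, Function.update_of_ne h2] at h
    exact ht (Finset.mem_image.mpr ⟨x', Finset.mem_erase.mpr ⟨h2, hx'⟩, h.symm⟩)
  · exfalso
    rw [h2, Function.update_self, Function.update_of_ne h1] at h
    exact ht (Finset.mem_image.mpr ⟨x, Finset.mem_erase.mpr ⟨h1, hx⟩, h⟩)
  · rw [Function.update_of_ne h1, Function.update_of_ne h2] at h
    exact ha (Finset.mem_coe.mpr (Finset.mem_erase.mpr ⟨h1, hx⟩))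
      (Finset.mem_coe.mpr (Finset.mem_erase.mpr ⟨h2, hx'⟩)) h

theorem extend [DecidableEq V] {S : Finset V} {w u v : V} {a : V → ℚ} {t : ℚ} {b d : V → ℂ}
    (hu : u ∈ S.erase w) (hv : v ∈ S.erase w) (huv : a u ≠ a v)
    (h1 : nul (Function.update a w t) b d w u = 0) (h2 : nul (Function.update a w t) b d w v = 0)
    {θ c c' : ℂ} (h : ∀ x ∈ S.erase w, b x = θ * a x + c ∧ d x = θ ^ 2 * a x + c') :
    ∀ x ∈ S, b x = θ * (Function.update a w t x : ℚ) + c ∧
      d x = θ ^ 2 * (Function.update a w t x : ℚ) + c' := by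
  intro x hx
  by_cases hxw : x = w
  · subst hxw
    rw [Function.update_self]
    simp only [nul, Function.update_self, Function.update_of_ne (Finset.mem_erase.mp hu).1,
      Function.update_of_ne (Finset.mem_erase.mp hv).1] at h1 h2
    exact apex (by exact_mod_cast huv) (h u hu) (h v hv) h1 h2
  · rw [Function.update_of_ne hxw]
    exact h x (Finset.mem_erase.mpr ⟨hxw, hx⟩)

theorem exists_stiff [Fintype V] [DecidableEq V] (n : ℕ) : ∀ (S : Finset V) (E : Finset (Sym2 V)),
    S.card = n + 2 → Laman S E → ∃ a : V → ℚ, Set.InjOn a S ∧ Stiff S E a := by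
  induction n with
  | zero =>
      intro S E hS hL
      obtain ⟨u, v, huv, rfl⟩ := Finset.card_eq_two.mp hS
      have hE : E.card = 1 := by have := hL.count; omega
      obtain ⟨e, rfl⟩ := Finset.card_eq_one.mp hE
      have he : e = s(u, v) := by
        have h1 := hL.sub e (by simp)
        have h2 := hL.loopless e (by simp)
        induction e using Sym2.ind with
        | _ x y =>
          simp only [Finset.mk_mem_sym2_iff, Finset.mem_insert, Finset.mem_singleton,
            Sym2.mk_isDiag_iff] at h1 h2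
          rcases h1 with ⟨rfl | rfl, rfl | rfl⟩
          · exact absurd rfl h2
          · rfl
          · exact Sym2.eq_swap
          · exact absurd rfl h2
      subst he
      refine ⟨fun x => if x = u then 0 else 1, ?_, ?_⟩
      · intro x hx x' hx' h
        simp only [Finset.coe_insert, Finset.coe_singleton, Set.mem_insert_iff,
          Set.mem_singleton_iff] at hx hx'
        rcases hx with rfl | rfl <;> rcases hx' with rfl | rfl <;> simp_all [huv.symm]
      · intro b d h
        have h1 := h u v (by simp)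
        simp only [nul, if_true, if_neg huv.symm] at h1
        refine ⟨b v - b u, b u, d u, ?_⟩
        intro x hx
        simp only [Finset.mem_insert, Finset.mem_singleton] at hx
        rcases hx with rfl | rfl
        · simp
        · simp only [if_neg huv.symm]
          push_cast at h1 ⊢
          exact ⟨by ring, by linear_combination h1⟩
  | succ n ih =>
      intro S E hS hL
      obtain ⟨w, hw, h⟩ := henneberg hL (by omega)
      have hS' : (S.erase w).card = n + 2 := by
        have := Finset.card_erase_add_one hw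
        omega
      have hE₀ : ∀ x x', s(x, x') ∈ (E.filter fun e => w ∉ e) → s(x, x') ∈ E ∧ x ≠ w ∧ x' ≠ w := by
        intro x x' hx
        obtain ⟨h1, h2⟩ := Finset.mem_filter.mp hx
        simp only [Sym2.mem_iff, not_or] at h2
        exact ⟨h1, Ne.symm h2.1, Ne.symm h2.2⟩
      rcases h with ⟨u, v, huv, hu, hv, hwu, hwv, hL'⟩ |
        ⟨u, v, z, huv, huz, hvz, hu, hv, hz, hwu, hwv, hwz, hL'⟩
      · obtain ⟨a, ha, hst⟩ := ih _ _ hS' hL'
        obtain ⟨t, -, ht⟩ := exists_avoid ∅ Set.finite_empty ((S.erase w).image a)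
        refine ⟨Function.update a w t, injOn_update ha ht, fun b d h => ?_⟩
        obtain ⟨θ, c, c', h1⟩ := hst b d (fun x x' hx => by
          obtain ⟨h1, h2, h3⟩ := hE₀ x x' hx
          rw [← nul_update a w t b d h2 h3]
          exact h x x' h1)
        exact ⟨θ, c, c', extend hu hv (fun h => huv (ha hu hv h)) (h _ _ hwu) (h _ _ hwv) h1⟩
      · obtain ⟨a, ha, hst⟩ := ih _ _ hS' hL'
        have auv : a u ≠ a v := fun h => huv (ha hu hv h)
        have auz : a u ≠ a z := fun h => huz (ha hu hz h)
        have avz : a v ≠ a z := fun h => hvz (ha hv hz h)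
        have hZ := pinned_finite hst hu hv auv (fun x x' => if s(x, x') = s(u, v) then 1 else 0)
        have hB := hZ.biUnion (t := fun p => {t : ℂ | ∃ β η : ℂ, (t - a u) * η - β ^ 2 = 0 ∧
            (t - a v) * (η - p.2 v) - β ^ 2 = 0 ∧
            (t - a z) * (η - p.2 z) - (β - p.1 z) ^ 2 = 0}) (by
          rintro ⟨b, d⟩ ⟨h1, h2, h3⟩
          refine cones (by exact_mod_cast auv) (by exact_mod_cast auz) (by exact_mod_cast avz)
            _ _ _ ?_
          have h4 := h3 u v (Finset.mem_insert_self _ _)
          have h5 := h1 u (by simp)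
          have h6 := h1 v (by simp)
          have h7 := h2 u (by simp)
          simp only at h4 h5 h6 h7
          simpa [nul, h5, h6, h7] using h4)
        obtain ⟨t, htB, ht⟩ := exists_avoid _ hB ((S.erase w).image a)
        refine ⟨Function.update a w t, injOn_update ha ht, fun b d h => ?_⟩
        have hw0 : ∀ x x', s(x, x') ∈ (E.filter fun e => w ∉ e) → nul a b d x x' = 0 := by
          intro x x' hx
          obtain ⟨h1, h2, h3⟩ := hE₀ x x' hx
          rw [← nul_update a w t b d h2 h3]
          exact h x x' h1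
        by_cases hφ : nul a b d u v = 0
        · obtain ⟨θ, c, c', h1⟩ := hst b d (fun x x' hx => by
            rcases Finset.mem_insert.mp hx with hx | hx
            · rcases Sym2.eq_iff.mp hx with ⟨rfl, rfl⟩ | ⟨rfl, rfl⟩
              · exact hφ
              · rw [nul_symm]; exact hφ
            · exact hw0 x x' hx)
          exact ⟨θ, c, c', extend hu hv auv (h _ _ hwu) (h _ _ hwv) h1⟩
        · exfalso
          apply htB
          obtain ⟨ρ, hρ⟩ : ∃ r : ℂ, r ^ 2 = nul a b d u v := IsAlgClosed.exists_pow_nat_eq _ two_pos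
          have hρ0 : ρ ≠ 0 := by
            rintro rfl
            exact hφ (by rw [← hρ]; simp)
          have hauv : (a u : ℂ) - a v ≠ 0 := sub_ne_zero.mpr (by exact_mod_cast auv)
          let θ : ℂ := (b u - b v) / ((a u : ℂ) - a v)
          let a' := Function.update a w t
          let b' : V → ℂ := fun x => (b x - b u - θ * ((a' x : ℂ) - a u)) / ρ
          let d' : V → ℂ := fun x =>
            (d x - d u - 2 * θ * (b x - b u) + θ ^ 2 * ((a' x : ℂ) - a u)) / ρ ^ 2
          have hnul : ∀ x x', nul a' b' d' x x' = nul a' b d x x' / ρ ^ 2 := by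
            intro x x'
            simp only [nul, b', d']
            field_simp
            ring
          have huw : u ≠ w := (Finset.mem_erase.mp hu).1
          have hvw : v ≠ w := (Finset.mem_erase.mp hv).1
          have hzw : z ≠ w := (Finset.mem_erase.mp hz).1
          have hb'u : b' u = 0 := by simp [b', a', Function.update_of_ne huw]
          have hd'u : d' u = 0 := by simp [d', a', Function.update_of_ne huw]
          have hb'v : b' v = 0 := by
            simp only [b', a', Function.update_of_ne hvw, θ]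
            field_simp
            ring
          let p : (V → ℂ) × (V → ℂ) := (fun x => if x ∈ S.erase w then b' x else 0,
            fun x => if x ∈ S.erase w then d' x else 0)
          refine Set.mem_biUnion (x := p) ⟨?_, ?_, ?_⟩ ⟨b' w, d' w, ?_, ?_, ?_⟩
          · rintro x (hx | rfl | rfl)
            · simp only [p, if_neg hx]
            · simp only [p, if_pos hu, hb'u]
            · simp only [p, if_pos hv, hb'v]
          · rintro x (hx | rfl)
            · simp only [p, if_neg hx]
            · simp only [p, if_pos hu, hd'u]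
          · intro x x' hx
            obtain ⟨hx1, hx2⟩ := Finset.mk_mem_sym2_iff.mp (hL'.sub _ hx)
            have e1 : nul a p.1 p.2 x x' = nul a b d x x' / ρ ^ 2 := by
              rw [← nul_update a w t b d (Finset.mem_erase.mp hx1).1 (Finset.mem_erase.mp hx2).1,
                ← hnul, nul_update a w t b' d' (Finset.mem_erase.mp hx1).1
                  (Finset.mem_erase.mp hx2).1]
              simp only [nul, p, if_pos hx1, if_pos hx2]
            rw [e1]
            split_ifs with hxx
            · rcases Sym2.eq_iff.mp hxx with ⟨rfl, rfl⟩ | ⟨rfl, rfl⟩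
              · rw [← hρ, div_self (pow_ne_zero 2 hρ0)]
              · rw [nul_symm, ← hρ, div_self (pow_ne_zero 2 hρ0)]
            · rw [hw0 x x' ((Finset.mem_insert.mp hx).resolve_left hxx), zero_div]
          · have e1 := hnul w u
            rw [h _ _ hwu, zero_div] at e1
            simpa [nul, a', Function.update_of_ne huw, hb'u, hd'u] using e1
          · have e1 := hnul w v
            rw [h _ _ hwv, zero_div] at e1
            simp only [p, if_pos hv]
            simpa [nul, a', Function.update_of_ne hvw, hb'v] using e1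
          · have e1 := hnul w z
            rw [h _ _ hwz, zero_div] at e1
            simp only [p, if_pos hz]
            simpa [nul, a', Function.update_of_ne hzw] using e1

end Pool.Agent.Lib.MP_2127f1_co
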