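import Pool.Agent.Lib.MP_2127f1_co.Count
import Pool.Agent.Lib.MP_2127f1_co.Null

/-!
Counting the realisations.
-/

namespace Pool.Agent.Lib.MP_2127f1_co

open MvPolynomial

theorem sign_lemma {V : Type} (t t' : V → ℂ) (h : ∀ u v, t' u * t' v = t u * t v) :
    (∀ v, t' v = t v) ∨ (∀ v, t' v = -t v) := by
  by_cases h0 : ∀ v, t v = 0
  · left
    intro v
    have := h v v
    rw [h0 v, mul_zero] at this
    rw [h0 v]
    exact mul_self_eq_zero.mp this
  · push Not at h0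
    obtain ⟨w, hw⟩ := h0
    rcases mul_self_eq_mul_self_iff.mp (h w w) with h1 | h1
    · left
      intro v
      have := h w v
      rw [h1] at this
      exact mul_left_cancel₀ hw this
    · right
      intro v
      have := h w v
      rw [h1] at this
      refine mul_left_cancel₀ hw ?_
      linear_combination -this

theorem fiber_xy {V : Type} (v₁ v₂ : V) (x y x' y' : V → ℂ) (h1 : x' v₁ = x v₁)
    (h2 : y' v₁ = y v₁) (h3 : x' v₂ = x v₂) (hx : x v₂ - x v₁ ≠ 0) (hy : y v₂ - y v₁ ≠ 0)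
    (h : ∀ u v, (x' u - x' v) * (y' u - y' v) = (x u - x v) * (y u - y v)) :
    (x' = x ∧ y' = y) ∨
      (x' = (fun v => x v₁ + (x v₂ - x v₁) / (y v₂ - y v₁) * (y v - y v₁)) ∧
        y' = fun v => y v₁ + (y v₂ - y v₁) / (x v₂ - x v₁) * (x v - x v₁)) := by
  have h4 : y' v₂ = y v₂ := by
    have := h v₂ v₁
    rw [h1, h2, h3] at this
    have := mul_left_cancel₀ hx this
    linear_combination this
  have hs : ∀ v, (x' v - x v₁) * (y v₂ - y v₁) + (x v₂ - x v₁) * (y' v - y v₁) =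
      (x v - x v₁) * (y v₂ - y v₁) + (x v₂ - x v₁) * (y v - y v₁) := by
    intro v
    have e1 := h v v₁
    have e2 := h v v₂
    rw [h1, h2] at e1
    rw [h3, h4] at e2
    linear_combination e1 - e2
  have hp : ∀ u v, (x' u - x v₁) * (y' v - y v₁) + (x' v - x v₁) * (y' u - y v₁) =
      (x u - x v₁) * (y v - y v₁) + (x v - x v₁) * (y u - y v₁) := by
    intro u v
    have e1 := h u v₁
    have e2 := h v v₁
    have e3 := h u v
    rw [h1, h2] at e1 e2
    linear_combination e1 + e2 - e3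
  have ht := sign_lemma
    (fun v => (x v - x v₁) * (y v₂ - y v₁) - (x v₂ - x v₁) * (y v - y v₁))
    (fun v => (x' v - x v₁) * (y v₂ - y v₁) - (x v₂ - x v₁) * (y' v - y v₁)) (by
      intro u v
      have e1 := hs u
      have e2 := hs v
      have e3 := hp u v
      linear_combination
        ((x' v - x v₁) * (y v₂ - y v₁) + (x v₂ - x v₁) * (y' v - y v₁)) * e1 +
        ((x u - x v₁) * (y v₂ - y v₁) + (x v₂ - x v₁) * (y u - y v₁)) * e2 -
        2 * (x v₂ - x v₁) * (y v₂ - y v₁) * e3)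
  rcases ht with ht | ht
  · left
    constructor
    · funext v
      have e : (x' v - x v) * (y v₂ - y v₁) = 0 := by
        linear_combination (1 / 2) * hs v + (1 / 2) * ht v
      exact sub_eq_zero.mp ((mul_eq_zero.mp e).resolve_right hy)
    · funext v
      have e : (y' v - y v) * (x v₂ - x v₁) = 0 := by
        linear_combination (1 / 2) * hs v - (1 / 2) * ht v
      exact sub_eq_zero.mp ((mul_eq_zero.mp e).resolve_right hx)
  · right
    constructor
    · funext v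
      field_simp
      linear_combination (1 / 2) * hs v + (1 / 2) * ht v
    · funext v
      field_simp
      linear_combination (1 / 2) * hs v - (1 / 2) * ht v

section Pinned

variable {V : Type} [DecidableEq V] (v₁ v₂ : V)

/-- The variables of the pinned system. -/
abbrev Var (v₁ v₂ : V) : Type := {v // v ≠ v₁ ∧ v ≠ v₂} ⊕ {v // v ≠ v₁}

/-- The first-order variable at a vertex. -/
noncomputable def bv (v : V) : MvPolynomial (Var v₁ v₂) ℚ :=
  if h : v ≠ v₁ ∧ v ≠ v₂ then X (Sum.inl ⟨v, h⟩) else 0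

/-- The square root of the second-order variable at a vertex. -/
noncomputable def zv (v : V) : MvPolynomial (Var v₁ v₂) ℚ :=
  if h : v ≠ v₁ then X (Sum.inr ⟨v, h⟩) else 0

theorem bv_hom (v : V) : (bv v₁ v₂ v).IsHomogeneous 1 := by
  unfold bv
  split_ifs
  · exact isHomogeneous_X _ _
  · exact isHomogeneous_zero _ _ _

theorem zv_hom (v : V) : (zv v₁ v₂ v).IsHomogeneous 1 := by
  unfold zv
  split_ifs
  · exact isHomogeneous_X _ _
  · exact isHomogeneous_zero _ _ _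

/-- The quadratic part of an edge polynomial. -/
noncomputable def qq (a : V → ℚ) (u v : V) : MvPolynomial (Var v₁ v₂) ℚ :=
  C (a u - a v) * (zv v₁ v₂ u ^ 2 - zv v₁ v₂ v ^ 2) - (bv v₁ v₂ u - bv v₁ v₂ v) ^ 2

/-- The cubic part of an edge polynomial. -/
noncomputable def cc (u v : V) : MvPolynomial (Var v₁ v₂) ℚ :=
  (bv v₁ v₂ u - bv v₁ v₂ v) * (zv v₁ v₂ u ^ 2 - zv v₁ v₂ v ^ 2)

theorem qq_hom (a : V → ℚ) (u v : V) : (qq v₁ v₂ a u v).IsHomogeneous 2 :=
  ((((zv_hom v₁ v₂ u).pow 2).sub ((zv_hom v₁ v₂ v).pow 2)).C_mul _).sub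
    (((bv_hom v₁ v₂ u).sub (bv_hom v₁ v₂ v)).pow 2)

theorem cc_hom (u v : V) : (cc v₁ v₂ u v).IsHomogeneous 3 :=
  ((bv_hom v₁ v₂ u).sub (bv_hom v₁ v₂ v)).mul
    (((zv_hom v₁ v₂ u).pow 2).sub ((zv_hom v₁ v₂ v).pow 2))

/-- The first isotropic coordinate. -/
noncomputable def xc (a : V → ℚ) (z : Var v₁ v₂ → ℂ) (v : V) : ℂ := a v + aeval z (bv v₁ v₂ v)

/-- The second isotropic coordinate. -/
noncomputable def yc (a : V → ℚ) (z : Var v₁ v₂ → ℂ) (v : V) : ℂ :=
  a v - aeval z (bv v₁ v₂ v) + aeval z (zv v₁ v₂ v) ^ 2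

theorem aeval_edge (a : V → ℚ) (z : Var v₁ v₂ → ℂ) (u v : V) :
    aeval z (qq v₁ v₂ a u v + cc v₁ v₂ u v) =
      (xc v₁ v₂ a z u - xc v₁ v₂ a z v) * (yc v₁ v₂ a z u - yc v₁ v₂ a z v) -
        ((a u : ℂ) - a v) ^ 2 := by
  simp only [qq, cc, xc, yc, map_add, map_sub, map_mul, map_pow, aeval_C, eq_ratCast]
  ring

theorem xc_one (a : V → ℚ) (z : Var v₁ v₂ → ℂ) : xc v₁ v₂ a z v₁ = a v₁ := by simp [xc, bv]

theorem xc_two (a : V → ℚ) (z : Var v₁ v₂ → ℂ) : xc v₁ v₂ a z v₂ = a v₂ := by simp [xc, bv]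

theorem yc_one (a : V → ℚ) (z : Var v₁ v₂ → ℂ) : yc v₁ v₂ a z v₁ = a v₁ := by simp [yc, bv, zv]

theorem exists_pinned (a : V → ℚ) (x y : V → ℂ) (h1 : x v₁ = a v₁) (h2 : x v₂ = a v₂)
    (h3 : y v₁ = a v₁) : ∃ z : Var v₁ v₂ → ℂ, xc v₁ v₂ a z = x ∧ yc v₁ v₂ a z = y := by
  have hsq : ∀ v, ∃ r : ℂ, r ^ 2 = y v - a v + (x v - a v) := fun v =>
    IsAlgClosed.exists_pow_nat_eq _ two_pos
  choose r hr using hsq
  have hb : ∀ v, aeval (Sum.elim (fun v => x v.1 - a v.1) (fun v => r v.1) : Var v₁ v₂ → ℂ)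
      (bv v₁ v₂ v) = x v - a v := by
    intro v
    unfold bv
    split_ifs with h
    · simp
    · rw [not_and_or, not_not, not_not] at h
      rcases h with rfl | rfl <;> simp [h1, h2]
  have hz : ∀ v, aeval (Sum.elim (fun v => x v.1 - a v.1) (fun v => r v.1) : Var v₁ v₂ → ℂ)
      (zv v₁ v₂ v) ^ 2 = y v - a v + (x v - a v) := by
    intro v
    unfold zv
    split_ifs with h
    · simp [hr]
    · rw [not_not] at h
      subst h
      simp [h1, h3]
  refine ⟨Sum.elim (fun v => x v.1 - a v.1) (fun v => r v.1), ?_, ?_⟩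
  · funext v
    rw [xc, hb]; ring
  · funext v
    rw [yc, hb, hz]; ring

theorem pinned_fiber [Fintype V] (a : V → ℚ) (x y : V → ℂ) :
    ∃ s : Finset (Var v₁ v₂ → ℂ), s.card ≤ 2 ^ Fintype.card {v // v ≠ v₁} ∧
      ∀ z, xc v₁ v₂ a z = x → yc v₁ v₂ a z = y → z ∈ s := by
  classical
  have hsq : ∀ v, ∃ r : ℂ, r ^ 2 = y v - a v + (x v - a v) := fun v =>
    IsAlgClosed.exists_pow_nat_eq _ two_pos
  choose r hr using hsq
  refine ⟨(Fintype.piFinset fun v : {v // v ≠ v₁} => ({r v.1, -r v.1} : Finset ℂ)).image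
    (fun w => Sum.elim (fun v => x v.1 - a v.1) w), ?_, ?_⟩
  · refine Finset.card_image_le.trans ?_
    rw [Fintype.card_piFinset]
    calc ∏ v : {v // v ≠ v₁}, ({r v.1, -r v.1} : Finset ℂ).card ≤ ∏ _v : {v // v ≠ v₁}, 2 :=
          Finset.prod_le_prod' fun v _ => Finset.card_le_two
      _ = 2 ^ Fintype.card {v // v ≠ v₁} := by simp
  · intro z hx hy
    refine Finset.mem_image.mpr ⟨fun v => z (Sum.inr v), ?_, ?_⟩
    · rw [Fintype.mem_piFinset]
      rintro ⟨v, hv⟩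
      have e1 := congrFun hx v
      have e2 := congrFun hy v
      simp only [xc, yc, zv, dif_pos hv, aeval_X] at e1 e2
      have e3 : z (Sum.inr ⟨v, hv⟩) ^ 2 = r v ^ 2 := by
        rw [hr]; linear_combination e1 + e2
      simpa using sq_eq_sq_iff_eq_or_eq_neg.mp e3
    · funext i
      rcases i with ⟨v, hv⟩ | v
      · have e1 := congrFun hx v
        simp only [xc, bv, dif_pos hv, aeval_X] at e1
        simp only [Sum.elim_inl]
        linear_combination -e1
      · rfl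

end Pinned

theorem sum_iso (x y x' y' : ℂ) :
    ∑ i : Fin 2, ((![(x + y) / 2, (x - y) / (2 * Complex.I)] : Fin 2 → ℂ) i -
      (![(x' + y') / 2, (x' - y') / (2 * Complex.I)] : Fin 2 → ℂ) i) ^ 2 = (x - x') * (y - y') := by
  simp only [Fin.sum_univ_two, Matrix.cons_val_zero, Matrix.cons_val_one]
  field_simp
  rw [Complex.I_sq]
  ring

theorem sum_iso' (q q' : Fin 2 → ℂ) :
    ∑ i : Fin 2, (q i - q' i) ^ 2 = ((q 0 + Complex.I * q 1) - (q' 0 + Complex.I * q' 1)) *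
      ((q 0 - Complex.I * q 1) - (q' 0 - Complex.I * q' 1)) := by
  simp only [Fin.sum_univ_two]
  linear_combination (q 1 - q' 1) ^ 2 * Complex.I_sq

theorem count_classes {V : Type} [Fintype V] [DecidableEq V] (n : ℕ) (hn : Fintype.card V = n + 2)
    (E : Finset (Sym2 V)) (hL : Laman Finset.univ E) (p : V → Fin 2 → ℝ)
    (hp : AlgebraicIndependent ℚ (fun x : V × Fin 2 => p x.1 x.2)) :
    2 ^ (n + 2 - 3) ≤ {D : V → V → ℂ | ∃ q : V → Fin 2 → ℂ,
      (∀ u v, s(u, v) ∈ E →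
        ∑ i, (q u i - q v i) ^ 2 = ∑ i, ((p u i - p v i : ℝ) : ℂ) ^ 2) ∧
      D = fun u v => ∑ i, (q u i - q v i) ^ 2}.ncard := by
  classical
  obtain ⟨a, ha, hst⟩ := exists_stiff n Finset.univ E (by simpa using hn) hL
  have hEc : E.card = 2 * n + 1 := by
    have := hL.count
    rw [Finset.card_univ, hn] at this
    omega
  have hor : ∀ e : E, ∃ u v, (e : Sym2 V) = s(u, v) := fun e =>
    Sym2.ind (fun u v => ⟨u, v, rfl⟩) (e : Sym2 V)
  choose s t hst' using hor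
  obtain ⟨e₀, he₀⟩ : E.Nonempty := Finset.card_pos.mp (by omega)
  let v₁ := s ⟨e₀, he₀⟩
  let v₂ := t ⟨e₀, he₀⟩
  have h12E : s(v₁, v₂) ∈ E := by rw [← hst']; exact he₀
  have h12 : v₁ ≠ v₂ := fun h => hL.loopless _ h12E (Sym2.mk_isDiag_iff.mpr h)
  have a12 : (a v₂ : ℂ) - a v₁ ≠ 0 := sub_ne_zero.mpr (by
    exact_mod_cast fun h => h12 (ha (by simp) (by simp) h).symm)
  have hc1 : Fintype.card {v // v ≠ v₁} = n + 1 := by
    rw [Fintype.card_subtype_compl, Fintype.card_subtype_eq, hn]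
    omega
  have hc2 : Fintype.card {v // v ≠ v₁ ∧ v ≠ v₂} = n := by
    rw [Fintype.card_subtype]
    have : (Finset.univ.filter fun v => v ≠ v₁ ∧ v ≠ v₂) = Finset.univ \ {v₁, v₂} := by
      ext v; simp
    rw [this, Finset.card_univ_sdiff, Finset.card_pair h12, hn]
    omega
  have hcV : Fintype.card (Var v₁ v₂) = 2 * n + 1 := by
    rw [Fintype.card_sum, hc1, hc2]; omega
  have hcard : Fintype.card E = Fintype.card (Var v₁ v₂) := by
    rw [Fintype.card_coe, hEc, hcV]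
  let q : E → MvPolynomial (Var v₁ v₂) ℚ := fun e => qq v₁ v₂ a (s e) (t e)
  let c : E → MvPolynomial (Var v₁ v₂) ℚ := fun e => cc v₁ v₂ (s e) (t e)
  have hq : ∀ e, (q e).IsHomogeneous 2 := fun e => qq_hom _ _ _ _ _
  have hc : ∀ e, (c e).IsHomogeneous 3 := fun e => cc_hom _ _ _ _
  have horient : ∀ (f : V → V → ℂ), (∀ u v, f u v = f v u) → (∀ e, f (s e) (t e) = 0) →
      ∀ u v, s(u, v) ∈ E → f u v = 0 := by
    intro f hf h u v huv
    have h1 := h ⟨_, huv⟩
    rcases Sym2.eq_iff.mp (hst' ⟨_, huv⟩) with ⟨h2, h3⟩ | ⟨h2, h3⟩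
    · rw [← h2, ← h3] at h1; exact h1
    · rw [← h2, ← h3, hf] at h1; exact h1
  have h0 : ∀ z : Var v₁ v₂ → ℂ, (∀ e, aeval z (q e) = 0) → z = 0 := by
    intro z hz
    obtain ⟨θ, k, k', h3⟩ := hst (fun v => aeval z (bv v₁ v₂ v))
      (fun v => aeval z (zv v₁ v₂ v) ^ 2) (horient _ (nul_symm _ _ _) (fun e => by
        simpa [q, qq, nul] using hz e))
    have hu1 := (h3 v₁ (by simp)).1
    have hu2 := (h3 v₁ (by simp)).2
    have hv1 := (h3 v₂ (by simp)).1
    simp only [bv, zv, ne_eq, not_true_eq_false, false_and, and_false, dite_false,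
      map_zero] at hu1 hu2 hv1
    have hθ : θ = 0 := by
      have : θ * ((a v₂ : ℂ) - a v₁) = 0 := by linear_combination hu1 - hv1
      exact (mul_eq_zero.mp this).resolve_right a12
    have hk : k = 0 := by rw [hθ] at hu1; simpa using hu1.symm
    have hk' : k' = 0 := by rw [hθ] at hu2; simpa using hu2.symm
    funext i
    rcases i with ⟨v, hv⟩ | ⟨v, hv⟩
    · simpa [hθ, hk, bv, dif_pos hv] using (h3 v (by simp)).1
    · simpa [hθ, hk', zv, dif_pos hv] using (h3 v (by simp)).2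
  let lam : V → V → ℂ := fun u v => ∑ i, ((p u i - p v i : ℝ) : ℂ) ^ 2
  have lam_symm : ∀ u v, lam u v = lam v u := by
    intro u v
    simp only [lam]
    refine Finset.sum_congr rfl fun i _ => ?_
    push_cast; ring
  let y : E → ℂ := fun e => lam (s e) (t e) - ((a (s e) : ℂ) - a (t e)) ^ 2
  let real : (Var v₁ v₂ → ℂ) → V → Fin 2 → ℂ := fun z v =>
    ![(xc v₁ v₂ a z v + yc v₁ v₂ a z v) / 2, (xc v₁ v₂ a z v - yc v₁ v₂ a z v) / (2 * Complex.I)]
  have hy : AlgebraicIndependent ℚ y := by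
    have hg := algebraicIndependent_add q c hq hc h0 hcard
    have hp' : AlgebraicIndependent ℚ (fun x : V × Fin 2 => ((p x.1 x.2 : ℝ) : ℂ)) :=
      hp.map' (f := (Complex.ofRealAm.restrictScalars ℚ)) Complex.ofReal_injective
    let G : E → MvPolynomial (V × Fin 2) ℚ := fun e =>
      ∑ i, (X (s e, i) - X (t e, i)) ^ 2 - C ((a (s e) - a (t e)) ^ 2)
    rw [algebraicIndependent_iff]
    intro P hP
    have h1 : aeval G P = 0 := by
      refine hp'.eq_zero_of_aeval_eq_zero _ ?_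
      rw [← hP, ← AlgHom.comp_apply, comp_aeval]
      congr 2
      funext e
      simp [G, y, lam]
    refine hg.eq_zero_of_aeval_eq_zero _ ?_
    refine MvPolynomial.funext fun r => ?_
    have h2 : aeval (fun i => (r i : ℂ)) (aeval (fun e => q e + c e) P) = 0 := by
      have h3 := congrArg (aeval (fun x : V × Fin 2 => real (fun i => (r i : ℂ)) x.1 x.2)) h1
      rw [map_zero, ← AlgHom.comp_apply, comp_aeval] at h3
      rw [← h3, ← AlgHom.comp_apply, comp_aeval]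
      congr 2
      funext e
      simp only [q, c]
      rw [aeval_edge, ← sum_iso]
      simp [G, real]
    rw [map_zero]
    have h4 := aeval_algebraMap_apply ℂ r (aeval (fun e => q e + c e) P)
    have h5 : ((aeval r (aeval (fun e => q e + c e) P) : ℚ) : ℂ) = 0 := h4.symm.trans h2
    exact_mod_cast h5
  obtain ⟨hfin, hcount⟩ := bezout q c hq hc h0 hcard y hy
  set Sol := {z : Var v₁ v₂ → ℂ | ∀ e, aeval z (q e + c e) = y e} with hSol
  let Ψ : (Var v₁ v₂ → ℂ) → V → V → ℂ := fun z u v =>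
    (xc v₁ v₂ a z u - xc v₁ v₂ a z v) * (yc v₁ v₂ a z u - yc v₁ v₂ a z v)
  have hmem : ∀ z, z ∈ Sol ↔ ∀ u v, s(u, v) ∈ E → Ψ z u v = lam u v := by
    intro z
    constructor
    · intro hz u v huv
      refine sub_eq_zero.mp (horient (fun u v => Ψ z u v - lam u v) ?_ ?_ u v huv)
      · intro u v
        simp only [Ψ, lam_symm u v]
        ring
      · intro e
        have := hz e
        simp only [q, c, y] at this
        rw [aeval_edge] at this
        simp only [Ψ]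
        linear_combination this
    · intro hz e
      simp only [q, c, y]
      rw [aeval_edge, ← hz (s e) (t e) (by rw [← hst']; exact e.2)]
  have lam12 : lam v₂ v₁ ≠ 0 := by
    intro h
    have h1 : ∑ i, (p v₂ i - p v₁ i) ^ 2 = 0 := by
      simp only [lam] at h
      exact_mod_cast h
    rw [Fin.sum_univ_two] at h1
    have h2 : p v₂ 0 = p v₁ 0 := by
      nlinarith [sq_nonneg (p v₂ 0 - p v₁ 0), sq_nonneg (p v₂ 1 - p v₁ 1)]
    have := hp.injective (a₁ := (v₂, 0)) (a₂ := (v₁, 0)) h2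
    exact h12 (congrArg Prod.fst this).symm
  have h21E : s(v₂, v₁) ∈ E := by rw [Sym2.eq_swap]; exact h12E
  have hT : {D : V → V → ℂ | ∃ q : V → Fin 2 → ℂ,
      (∀ u v, s(u, v) ∈ E →
        ∑ i, (q u i - q v i) ^ 2 = ∑ i, ((p u i - p v i : ℝ) : ℂ) ^ 2) ∧
      D = fun u v => ∑ i, (q u i - q v i) ^ 2} = Ψ '' Sol := by
    ext D
    constructor
    · rintro ⟨w, hw, rfl⟩
      let x : V → ℂ := fun v => w v 0 + Complex.I * w v 1
      let x' : V → ℂ := fun v => w v 0 - Complex.I * w v 1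
      have hD : ∀ u v, ∑ i, (w u i - w v i) ^ 2 = (x u - x v) * (x' u - x' v) := fun u v =>
        sum_iso' _ _
      have hx : x v₂ - x v₁ ≠ 0 := by
        intro h
        apply lam12
        have := hw v₂ v₁ h21E
        rw [hD, h, zero_mul] at this
        exact this.symm
      obtain ⟨z, hz1, hz2⟩ := exists_pinned v₁ v₂ a
        (fun v => a v₁ + ((a v₂ : ℂ) - a v₁) / (x v₂ - x v₁) * (x v - x v₁))
        (fun v => a v₁ + (x v₂ - x v₁) / ((a v₂ : ℂ) - a v₁) * (x' v - x' v₁))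
        (by simp) (by field_simp; ring) (by simp)
      have hΨ : ∀ u v, Ψ z u v = ∑ i, (w u i - w v i) ^ 2 := by
        intro u v
        simp only [Ψ, hz1, hz2, hD]
        field_simp
        ring
      refine ⟨z, (hmem z).mpr fun u v huv => ?_, ?_⟩
      · rw [hΨ]; exact hw u v huv
      · funext u v; exact hΨ u v
    · rintro ⟨z, hz, rfl⟩
      refine ⟨real z, fun u v huv => ?_, ?_⟩
      · simp only [real]
        rw [sum_iso]
        exact (hmem z).mp hz u v huv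
      · funext u v
        simp only [real]
        rw [sum_iso]
  rw [hT]
  have hfib : Sol.ncard ≤ 2 ^ (n + 2) * (Ψ '' Sol).ncard := by
    rw [Set.ncard_eq_toFinset_card Sol hfin, Set.ncard_eq_toFinset_card _ (hfin.image Ψ),
      Set.Finite.toFinset_image Ψ hfin]
    refine Finset.card_le_mul_card_image _ _ fun D hD => ?_
    obtain ⟨z₀, hz₀, rfl⟩ := Finset.mem_image.mp hD
    have hz₀' : z₀ ∈ Sol := by simpa using hz₀
    have hx : xc v₁ v₂ a z₀ v₂ - xc v₁ v₂ a z₀ v₁ ≠ 0 := by rw [xc_one, xc_two]; exact a12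
    have hy0 : yc v₁ v₂ a z₀ v₂ - yc v₁ v₂ a z₀ v₁ ≠ 0 := by
      intro h
      apply lam12
      rw [← (hmem z₀).mp hz₀' v₂ v₁ h21E]
      simp only [Ψ, h, mul_zero]
    obtain ⟨s₁, hs₁, hs₁'⟩ := pinned_fiber v₁ v₂ a (xc v₁ v₂ a z₀) (yc v₁ v₂ a z₀)
    obtain ⟨s₂, hs₂, hs₂'⟩ := pinned_fiber v₁ v₂ a
      (fun v => xc v₁ v₂ a z₀ v₁ + (xc v₁ v₂ a z₀ v₂ - xc v₁ v₂ a z₀ v₁) /
        (yc v₁ v₂ a z₀ v₂ - yc v₁ v₂ a z₀ v₁) * (yc v₁ v₂ a z₀ v - yc v₁ v₂ a z₀ v₁))
      (fun v => yc v₁ v₂ a z₀ v₁ + (yc v₁ v₂ a z₀ v₂ - yc v₁ v₂ a z₀ v₁) /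
        (xc v₁ v₂ a z₀ v₂ - xc v₁ v₂ a z₀ v₁) * (xc v₁ v₂ a z₀ v - xc v₁ v₂ a z₀ v₁))
    refine (Finset.card_le_card (t := s₁ ∪ s₂) ?_).trans ((Finset.card_union_le _ _).trans ?_)
    · intro z hz
      have hΨ : Ψ z = Ψ z₀ := (Finset.mem_filter.mp hz).2
      rcases fiber_xy v₁ v₂ (xc v₁ v₂ a z₀) (yc v₁ v₂ a z₀) (xc v₁ v₂ a z) (yc v₁ v₂ a z)
        (by rw [xc_one, xc_one]) (by rw [yc_one, yc_one]) (by rw [xc_two, xc_two]) hx hy0
        (fun u v => congrFun (congrFun hΨ u) v) with ⟨e1, e2⟩ | ⟨e1, e2⟩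
      · exact Finset.mem_union_left _ (hs₁' z e1 e2)
      · exact Finset.mem_union_right _ (hs₂' z e1 e2)
    · rw [hc1] at hs₁ hs₂
      rw [pow_succ]
      omega
  rw [hcV] at hcount
  have h5 : 2 ^ (2 * n + 1) ≤ 2 ^ (n + 2) * (Ψ '' Sol).ncard := hcount.trans hfib
  rcases Nat.eq_zero_or_pos n with hn0 | hn0
  · subst hn0
    simp only [zero_add, Nat.reduceSub, pow_zero]
    by_contra hlt
    have : (Ψ '' Sol).ncard = 0 := by omega
    rw [this] at h5
    simp at h5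
  · have : 2 * n + 1 = (n + 2) + (n + 2 - 3) := by omega
    rw [this, pow_add] at h5
    exact Nat.le_of_mul_le_mul_left h5 (by positivity)

end Pool.Agent.Lib.MP_2127f1_co
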